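import Pool.Agent.R104.PO.Span

/-! Dimensions. -/

namespace Pool.Agent.R104.PO

open Finset

noncomputable section

variable {n N : ℕ}

/-! ### vanishing and nonvanishing -/

theorem Phi_below_eq_zero (m α : Fin n →₀ ℕ) (h : ¬ α ≤ m) (g : PP n N) :
    Phi (Vm m) (PL (below α) * g) = 0 := by
  obtain ⟨i, hi⟩ : ∃ i, m i < α i := by
    by_contra hcon
    push Not at hcon
    exact h fun i => hcon i
  apply Phi_eq_zero_of_dvd (Vm m) i
  refine Dvd.dvd.mul_right ?_ _
  apply Finset.prod_dvd_prod_of_subset
  intro v hv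
  simp only [Vm, below, Finset.mem_filter, Finset.mem_univ, true_and] at hv ⊢
  obtain ⟨h1, rfl⟩ := hv
  omega

def above (α m : Fin n →₀ ℕ) : Finset (VV n N) :=
  Finset.univ.filter fun v => α v.1 < (v.2 : ℕ) ∧ (v.2 : ℕ) ≤ m v.1

theorem disj_below_above (α m : Fin n →₀ ℕ) :
    Disjoint (below α : Finset (VV n N)) (above α m) := by
  rw [Finset.disjoint_left]
  intro v hv hv'
  simp only [below, above, Finset.mem_filter, Finset.mem_univ, true_and] at hv hv'
  omega

theorem union_subset_Vm {α m : Fin n →₀ ℕ} (h : α ≤ m) :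
    (below α ∪ above α m : Finset (VV n N)) ⊆ Vm m := by
  intro v hv
  simp only [below, above, Vm, Finset.mem_union, Finset.mem_filter, Finset.mem_univ,
    true_and] at hv ⊢
  have := h v.1
  omega

theorem sdiff_eq {α m : Fin n →₀ ℕ} (h : α ≤ m) (hN : ∀ i, α i < N) :
    (Vm m \ (below α ∪ above α m) : Finset (VV n N))
      = Finset.univ.image fun i => (i, ⟨α i, hN i⟩) := by
  ext v
  simp only [below, above, Vm, Finset.mem_union, Finset.mem_filter, Finset.mem_univ,
    true_and, Finset.mem_sdiff, Finset.mem_image]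
  constructor
  · rintro ⟨h1, h2⟩
    refine ⟨v.1, ?_⟩
    ext
    · rfl
    · simp; omega
  · rintro ⟨i, rfl⟩
    have := h i
    constructor
    · exact this
    · simp

theorem PL_mul (A B : Finset (VV n N)) (h : Disjoint A B) : PL A * PL B = PL (A ∪ B) := by
  classical
  rw [PL, PL, PL, Finset.prod_union h]

theorem Phi_ne_zero {α m : Fin n →₀ ℕ} (h : α ≤ m) (hN : ∀ i, α i < N) :
    Phi (Vm m) (PL (below α) * PL (above α m) : PP n N) ≠ 0 := by
  rw [PL_mul _ _ (disj_below_above α m), ← mul_one (PL _), Phi_PL_mul (union_subset_Vm h),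
    sdiff_eq h hN]
  exact Phi_transversal _

theorem Phi_other {α α' m : Fin n →₀ ℕ} (hne : α' ≠ α) (hdeg : α'.degree = α.degree) :
    Phi (Vm m) (PL (below α') * PL (above α m) : PP n N) = 0 := by
  classical
  obtain ⟨i, hi⟩ : ∃ i, α i < α' i := by
    by_contra hcon
    push Not at hcon
    have hle : α' ≤ α := fun i => hcon i
    apply hne
    have h1 : α' + (α - α') = α := add_tsub_cancel_of_le hle
    have h2 := congrArg Finsupp.degree h1
    rw [map_add, hdeg] at h2
    have h3 : (α - α').degree = 0 := by omega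
    rw [Finsupp.degree_eq_zero_iff] at h3
    rw [h3, add_zero] at h1
    exact h1
  apply Phi_eq_zero_of_dvd (Vm m) i
  have h1 : PL (below α' ∪ above α m : Finset (VV n N)) ∣ PL (below α') * PL (above α m) := by
    rw [PL, PL, PL, ← Finset.prod_union_inter]
    exact Dvd.intro _ rfl
  refine dvd_trans (Finset.prod_dvd_prod_of_subset _ _ _ ?_) h1
  intro v hv
  simp only [Vm, below, above, Finset.mem_filter, Finset.mem_univ, true_and,
    Finset.mem_union] at hv ⊢
  obtain ⟨h1, rfl⟩ := hv
  omega

theorem card_above {α m : Fin n →₀ ℕ} (h : α ≤ m) (hN : ∀ i, m i < N) :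
    (above α m : Finset (VV n N)).card + α.degree = m.degree := by
  classical
  have hαN : ∀ i, α i < N := fun i => lt_of_le_of_lt (h i) (hN i)
  have h1 := Finset.card_sdiff_add_card_eq_card (union_subset_Vm (N := N) h)
  rw [sdiff_eq h hαN, Finset.card_union_of_disjoint (disj_below_above α m), card_Vm m hN,
    card_below α (fun i => (hαN i).le), Finset.card_image_of_injective, Finset.card_univ,
    Fintype.card_fin] at h1
  · omega
  · intro a b hab
    simpa using congrArg Prod.fst hab

theorem aux_ring3 {S : Type*} [CommRing S] (U c : S) : U ^ 2 * c = U * (U * c) := by ring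

/-! ### functionals with values in the fraction field -/

abbrev KF (n N : ℕ) := FractionRing (Lam n N)

abbrev EE (n N : ℕ) := PP n N →ₗ[Lam n N] KF n N

def psi (m : Fin n →₀ ℕ) : EE n N := (Algebra.linearMap (Lam n N) (KF n N)).comp (Phi (Vm m))

theorem psi_apply (m : Fin n →₀ ℕ) (g : PP n N) :
    psi m g = algebraMap (Lam n N) (KF n N) (Phi (Vm m) g) := rfl

def act (g : PP n N) : EE n N →ₗ[KF n N] EE n N where
  toFun ψ := ψ.comp (LinearMap.mulLeft (Lam n N) g)
  map_add' _ _ := rfl
  map_smul' _ _ := rfl

theorem act_apply (g : PP n N) (ψ : EE n N) (h : PP n N) : act g ψ h = ψ (g * h) := rfl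

theorem act_mul (g h : PP n N) (ψ : EE n N) : act (g * h) ψ = act g (act h ψ) := by
  refine LinearMap.ext fun x => ?_
  rw [act_apply, act_apply, act_apply]
  congr 1
  ring

theorem act_add (g h : PP n N) (ψ : EE n N) : act (g + h) ψ = act g ψ + act h ψ := by
  refine LinearMap.ext fun x => ?_
  rw [act_apply, LinearMap.add_apply, act_apply, act_apply, add_mul, map_add]

theorem act_smul (c : Lam n N) (g : PP n N) (ψ : EE n N) :
    act (c • g) ψ = (algebraMap (Lam n N) (KF n N) c) • act g ψ := by
  refine LinearMap.ext fun x => ?_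
  rw [act_apply, LinearMap.smul_apply, act_apply, smul_mul_assoc, map_smul, Algebra.smul_def,
    smul_eq_mul]

theorem act_zero (ψ : EE n N) : act 0 ψ = 0 := by
  refine LinearMap.ext fun x => ?_
  rw [act_apply, zero_mul, map_zero, LinearMap.zero_apply]

theorem act_sum {ι : Type*} (s : Finset ι) (g : ι → PP n N) (ψ : EE n N) :
    act (∑ i ∈ s, g i) ψ = ∑ i ∈ s, act (g i) ψ := by
  classical
  induction s using Finset.induction_on with
  | empty => simp [act_zero]
  | insert a s ha ih => rw [Finset.sum_insert ha, Finset.sum_insert ha, act_add, ih]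

theorem act_mem (g : PP n N) (q : ℕ) (hg : g.IsHomogeneous q) (ψ : EE n N) :
    act g ψ ∈ Submodule.span (KF n N) {x | ∃ β : Fin n →₀ ℕ, β.degree = q ∧
      x = act (MvPolynomial.monomial β 1) ψ} := by
  obtain ⟨h1, h2⟩ := homog_eq_sum g q hg
  rw [h1, act_sum]
  refine Submodule.sum_mem _ fun e he => ?_
  rw [act_smul]
  exact Submodule.smul_mem _ _ (Submodule.subset_span ⟨e, h2 e he, rfl⟩)

variable (U : Finset (Fin n →₀ ℕ)) (d : ℕ)

def top : Finset (Fin n →₀ ℕ) := U.filter fun α => α.degree = d

theorem finrank_Om (hdown : ∀ α ∈ U, ∀ β ≤ α, β ∈ U)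
    (hpure : ∀ α ∈ U, ∃ m ∈ top U d, α ≤ m) (hN : d < N) (p : ℕ) (hp : p ≤ d) :
    Module.finrank (KF n N) (Submodule.span (KF n N) {x : EE n N | ∃ m ∈ top U d,
      ∃ β : Fin n →₀ ℕ, β.degree = d - p ∧ x = act (MvPolynomial.monomial β 1) (psi m)})
      = (U.filter fun α => α.degree = p).card := by
  classical
  set Om := Submodule.span (KF n N) {x : EE n N | ∃ m ∈ top U d,
      ∃ β : Fin n →₀ ℕ, β.degree = d - p ∧ x = act (MvPolynomial.monomial β 1) (psi m)} with hOm
  have htop : ∀ m ∈ top U d, m.degree = d := fun m hm => (Finset.mem_filter.1 hm).2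
  have htopN : ∀ m ∈ top U d, ∀ i, m i < N := by
    intro m hm i
    have h1 : m i ≤ m.degree := Finsupp.le_degree i m
    rw [htop m hm] at h1
    omega
  -- evaluation
  set S : Finset (Fin n →₀ ℕ) := U.filter fun α => α.degree = p with hS
  obtain ⟨ev, hevdef⟩ : ∃ ev : EE n N →ₗ[KF n N] ({α // α ∈ S} → KF n N),
      ∀ ψ α, ev ψ α = ψ (PL (below α.1)) :=
    ⟨{ toFun := fun ψ α => ψ (PL (below α.1))
       map_add' := fun _ _ => rfl
       map_smul' := fun _ _ => rfl }, fun _ _ => rfl⟩
  have step1 : ∀ x ∈ Om, ∀ α : Fin n →₀ ℕ, α ∉ U → x (PL (below α)) = 0 := by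
    intro x hx α hα
    induction hx using Submodule.span_induction with
    | mem x hx =>
      obtain ⟨m, hm, β, _, rfl⟩ := hx
      rw [act_apply, psi_apply, mul_comm, Phi_below_eq_zero, map_zero]
      intro hle
      exact hα (hdown m (Finset.mem_filter.1 hm).1 α hle)
    | zero => rfl
    | add x y _ _ hx hy => rw [LinearMap.add_apply, hx, hy, add_zero]
    | smul c x _ hx => rw [LinearMap.smul_apply, hx, smul_zero]
  have step2 : ∀ x ∈ Om, ∀ e : Fin n →₀ ℕ, e.degree ≠ p → x (MvPolynomial.monomial e 1) = 0 := by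
    intro x hx e he
    induction hx using Submodule.span_induction with
    | mem x hx =>
      obtain ⟨m, hm, β, hβ, rfl⟩ := hx
      rw [act_apply, psi_apply, MvPolynomial.monomial_mul, one_mul, Phi_monomial_eq_zero, map_zero]
      rw [map_add, card_Vm m (htopN m hm), htop m hm, hβ]
      omega
    | zero => rfl
    | add x y _ _ hx hy => rw [LinearMap.add_apply, hx, hy, add_zero]
    | smul c x _ hx => rw [LinearMap.smul_apply, hx, smul_zero]
  have hinj : ∀ x ∈ Om, ∀ x' ∈ Om, ev x = ev x' → x = x' := by
    intro x hx x' hx' hev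
    have h1 : ∀ e : Fin n →₀ ℕ, x (MvPolynomial.monomial e 1) = x' (MvPolynomial.monomial e 1) := by
      intro e
      by_cases he : e.degree = p
      · have h2 := monomial_mem_span (n := n) (N := N) p (by omega) e he
        have h3 : Submodule.span (Lam n N) {g | ∃ α : Fin n →₀ ℕ, α.degree = p ∧
            g = PL (below α)} ≤ LinearMap.eqLocus x x' := by
          rw [Submodule.span_le]
          rintro _ ⟨α, hα, rfl⟩
          rw [SetLike.mem_coe, LinearMap.mem_eqLocus]
          by_cases hαU : α ∈ U
          · have h5 := congrFun hev ⟨α, Finset.mem_filter.2 ⟨hαU, hα⟩⟩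
            rw [hevdef, hevdef] at h5
            exact h5
          · rw [step1 x hx α hαU, step1 x' hx' α hαU]
        exact LinearMap.mem_eqLocus.1 (h3 h2)
      · rw [step2 x hx e he, step2 x' hx' e he]
    refine (MvPolynomial.basisMonomials (Fin n) (Lam n N)).ext fun e => ?_
    rw [MvPolynomial.coe_basisMonomials]
    exact h1 e
  have hsurj : ∀ y : {α // α ∈ S} → KF n N, ∃ x ∈ Om, ev x = y := by
    intro y
    have hex : ∀ α : {α // α ∈ S}, ∃ x ∈ Om, ∃ c : KF n N, c ≠ 0 ∧ ev x = Pi.single α c := by
      rintro ⟨α, hα⟩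
      have hα' := Finset.mem_filter.1 hα
      obtain ⟨m, hm, hle⟩ := hpure α hα'.1
      have hcard := card_above (N := N) hle (htopN m hm)
      rw [htop m hm, hα'.2] at hcard
      refine ⟨act (PL (above α m)) (psi m), ?_,
        algebraMap _ _ (Phi (Vm m) (PL (below α) * PL (above α m) : PP n N)), ?_, ?_⟩
      · have h1 := act_mem (PL (above α m) : PP n N) (d - p) (by
          have := PL_homog (above α m : Finset (VV n N))
          rwa [show (above α m : Finset (VV n N)).card = d - p by omega] at this) (psi m)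
        refine Submodule.span_mono ?_ h1
        rintro _ ⟨β, hβ, rfl⟩
        exact ⟨m, hm, β, hβ, rfl⟩
      · intro h
        rw [map_eq_zero_iff _ (IsFractionRing.injective (Lam n N) (KF n N))] at h
        exact Phi_ne_zero hle (fun i => lt_of_le_of_lt (hle i) (htopN m hm i)) h
      · funext α'
        rw [hevdef, act_apply, psi_apply, mul_comm]
        by_cases h : α' = ⟨α, hα⟩
        · subst h
          rw [Pi.single_eq_same]
        · rw [Pi.single_eq_of_ne h, Phi_other, map_zero]
          · intro h'
            exact h (Subtype.ext h')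
          · rw [(Finset.mem_filter.1 α'.2).2, hα'.2]
    choose x hx c hc hev using hex
    refine ⟨∑ α, (y α / c α) • x α, Submodule.sum_mem _ fun α _ => Submodule.smul_mem _ _ (hx α), ?_⟩
    rw [map_sum]
    funext α
    rw [Finset.sum_apply, Finset.sum_eq_single α]
    · rw [map_smul, hev, Pi.smul_apply, Pi.single_eq_same, smul_eq_mul, div_mul_cancel₀ _ (hc α)]
    · intro b _ hb
      rw [map_smul, hev, Pi.smul_apply, Pi.single_eq_of_ne (Ne.symm hb), smul_zero]
    · intro h; exact absurd (Finset.mem_univ α) h
  have hbij : Function.Bijective (ev.domRestrict Om) := by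
    constructor
    · intro x x' hx
      exact Subtype.ext (hinj x.1 x.2 x'.1 x'.2 hx)
    · intro y
      obtain ⟨x, hx, h⟩ := hsurj y
      exact ⟨⟨x, hx⟩, h⟩
  rw [(LinearEquiv.ofBijective (ev.domRestrict Om) hbij).finrank_eq, Module.finrank_fintype_fun_eq_card,
    Fintype.card_coe]

theorem finrank_Fm (hn : 0 < n) (hdown : ∀ α ∈ U, ∀ β ≤ α, β ∈ U)
    (hpure : ∀ α ∈ U, ∃ m ∈ top U d, α ≤ m) (hN : d < N) (q : ℕ) (hq : q + q ≤ d) :
    Module.finrank (KF n N) (Submodule.span (KF n N) {x : EE n N |
      ∃ β : Fin n →₀ ℕ, β.degree = q ∧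
        x = act (MvPolynomial.monomial β 1) (∑ m ∈ top U d, psi m)})
      = (U.filter fun α => α.degree = q).card := by
  classical
  set f : EE n N := ∑ m ∈ top U d, psi m with hf
  have htop : ∀ m ∈ top U d, m.degree = d := fun m hm => (Finset.mem_filter.1 hm).2
  have htopN : ∀ m ∈ top U d, ∀ i, m i < N := by
    intro m hm i
    have h1 : m i ≤ m.degree := Finsupp.le_degree i m
    rw [htop m hm] at h1
    omega
  set S : Finset (Fin n →₀ ℕ) := U.filter fun α => α.degree = q with hS
  obtain ⟨y, hy⟩ : ∃ y : {α // α ∈ S} → EE n N, ∀ α, y α = act (PL (below α.1)) f :=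
    ⟨fun α => act (PL (below α.1)) f, fun _ => rfl⟩
  have hfapp : ∀ g : PP n N, f g = algebraMap (Lam n N) (KF n N) (∑ m ∈ top U d, Phi (Vm m) g) := by
    intro g
    rw [hf, LinearMap.sum_apply, map_sum]
    rfl
  -- span
  have hspan : Submodule.span (KF n N) {x : EE n N | ∃ β : Fin n →₀ ℕ, β.degree = q ∧
      x = act (MvPolynomial.monomial β 1) f} = Submodule.span (KF n N) (Set.range y) := by
    apply le_antisymm
    · rw [Submodule.span_le]
      rintro _ ⟨β, hβ, rfl⟩
      have h2 := monomial_mem_span (n := n) (N := N) q (by omega) β hβ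
      have h3 : ∀ g ∈ Submodule.span (Lam n N) {g | ∃ α : Fin n →₀ ℕ, α.degree = q ∧
          g = PL (below α)}, act g f ∈ Submodule.span (KF n N) (Set.range y) := by
        intro g hg
        induction hg using Submodule.span_induction with
        | mem g hg =>
          obtain ⟨α, hα, rfl⟩ := hg
          by_cases hαU : α ∈ U
          · exact Submodule.subset_span ⟨⟨α, Finset.mem_filter.2 ⟨hαU, hα⟩⟩, hy _⟩
          · have : act (PL (below α)) f = 0 := by
              refine LinearMap.ext fun h => ?_
              rw [act_apply, hfapp, LinearMap.zero_apply]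
              rw [Finset.sum_eq_zero, map_zero]
              intro m hm
              apply Phi_below_eq_zero
              intro hle
              exact hαU (hdown m (Finset.mem_filter.1 hm).1 α hle)
            rw [this]
            exact Submodule.zero_mem _
        | zero => rw [act_zero]; exact Submodule.zero_mem _
        | add g h _ _ hg hh => rw [act_add]; exact Submodule.add_mem _ hg hh
        | smul c g _ hg => rw [act_smul]; exact Submodule.smul_mem _ _ hg
      exact h3 _ h2
    · rw [Submodule.span_le]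
      rintro _ ⟨α, rfl⟩
      have hα := Finset.mem_filter.1 α.2
      rw [hy]
      apply act_mem
      have h1 := PL_homog (below α.1 : Finset (VV n N))
      rw [card_below] at h1
      · rwa [hα.2] at h1
      · intro i
        have h2 : α.1 i ≤ α.1.degree := Finsupp.le_degree i α.1
        rw [hα.2] at h2
        omega
  rw [hspan]
  -- independence
  have hli : LinearIndependent (KF n N) y := by
    rw [← LinearIndependent.iff_fractionRing (R := Lam n N) (K := KF n N),
      Fintype.linearIndependent_iff]
    intro c hc α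
    set u : PP n N := ∑ α : {α // α ∈ S}, c α • PL (below α.1) with hu
    have hfu : ∀ h : PP n N, f (u * h) = 0 := by
      intro h
      have h1 := congrArg (fun ψ : EE n N => ψ h) hc
      simp only [LinearMap.sum_apply, LinearMap.smul_apply, LinearMap.zero_apply] at h1
      rw [hu, Finset.sum_mul, map_sum, ← h1]
      refine Finset.sum_congr rfl fun β _ => ?_
      rw [smul_mul_assoc, map_smul, hy, act_apply]
    have hfu' : ∀ h : PP n N, ∑ m ∈ top U d, Phi (Vm m) (u * h) = 0 := by
      intro h
      have h1 := hfu h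
      rw [hfapp, map_eq_zero_iff _ (IsFractionRing.injective (Lam n N) (KF n N))] at h1
      exact h1
    have hα := Finset.mem_filter.1 α.2
    obtain ⟨m, hm, hle⟩ := hpure α.1 hα.1
    have hsq : ∀ c : Fin n →₀ ℕ, c.degree = d - (q + q) →
        ∑ m ∈ top U d, Phi (Vm m) (u ^ 2 * MvPolynomial.monomial c 1) = 0 := by
      intro c _
      rw [aux_ring3 u]
      exact hfu' (u * MvPolynomial.monomial c 1)
    have hkey := key hn (top U d) d htop htopN q hq u hsq m hm
    have hcard := card_above (N := N) hle (htopN m hm)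
    rw [htop m hm, hα.2] at hcard
    have hab : (PL (above α.1 m) : PP n N).IsHomogeneous (d - q) := by
      have := PL_homog (above α.1 m : Finset (VV n N))
      rwa [show (above α.1 m : Finset (VV n N)).card = d - q by omega] at this
    have h0 : Phi (Vm m) (u * PL (above α.1 m)) = 0 := by
      obtain ⟨h1, h2⟩ := homog_eq_sum _ _ hab
      rw [h1, Finset.mul_sum, map_sum]
      apply Finset.sum_eq_zero
      intro e he
      rw [mul_smul_comm, map_smul, hkey e (h2 e he), smul_zero]
    rw [hu, Finset.sum_mul, map_sum, Finset.sum_eq_single α] at h0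
    · rw [smul_mul_assoc, map_smul, smul_eq_mul] at h0
      rcases mul_eq_zero.1 h0 with h | h
      · exact h
      · exact absurd h (Phi_ne_zero hle (fun i => lt_of_le_of_lt (hle i) (htopN m hm i)))
    · intro β _ hβ
      rw [smul_mul_assoc, map_smul, Phi_other, smul_zero]
      · intro h'
        exact hβ (Subtype.ext h')
      · rw [(Finset.mem_filter.1 β.2).2, hα.2]
    · intro h; exact absurd (Finset.mem_univ α) h
  rw [finrank_span_eq_card hli, Fintype.card_coe]

end

end Pool.Agent.R104.PO
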