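import Pool.Agent.R104.PO.Sup

/-! The key identity in characteristic two. -/

namespace Pool.Agent.R104.PO

open Finset

noncomputable section

variable {n N : ℕ}

/-! ### independence of squarefree monomials over squares -/

def rho : Option (Fin n) → ℕ
  | none => 0
  | some _ => 1

def E1 (v : VV n N) : Option (Fin n) → (Sg n N →₀ ℕ)
  | none => 0
  | some k => Finsupp.single (v, k) 1

abbrev KK (n N : ℕ) := VV n N → Option (Fin n)

def rhoK (κ : KK n N) : ℕ := ∑ v, rho (κ v)

def EK (κ : KK n N) : Sg n N →₀ ℕ := ∑ v, E1 v (κ v)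

theorem EK_apply (κ : KK n N) (v : VV n N) (k : Fin n) :
    EK κ (v, k) = if κ v = some k then 1 else 0 := by
  rw [EK, Finsupp.finsetSum_apply, Finset.sum_eq_single v]
  · cases h : κ v with
    | none => simp [E1]
    | some l =>
      simp only [E1, Finsupp.single_apply, Option.some.injEq, Prod.mk.injEq, true_and]
  · intro v' _ hv'
    cases h : κ v' with
    | none => simp [E1]
    | some l =>
      simp only [E1, Finsupp.single_apply]
      rw [if_neg]
      intro h'
      exact hv' (congrArg Prod.fst h')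
  · intro h; exact absurd (Finset.mem_univ v) h

theorem EK_parity {κ κ' : KK n N} {s x : Sg n N →₀ ℕ} (h : EK κ + (s + s) = EK κ' + (x + x)) :
    κ = κ' := by
  funext v
  have hk : ∀ k, (κ v = some k ↔ κ' v = some k) := by
    intro k
    have := DFunLike.congr_fun h (v, k)
    simp only [Finsupp.add_apply, EK_apply] at this
    constructor
    · intro h1
      by_contra h2
      rw [if_pos h1, if_neg h2] at this
      omega
    · intro h1
      by_contra h2
      rw [if_neg h2, if_pos h1] at this
      omega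
  cases h1 : κ v with
  | some k => exact ((hk k).1 h1).symm
  | none =>
    cases h2 : κ' v with
    | none => rfl
    | some k => rw [(hk k).2 h2] at h1; exact absurd h1 (by simp)

def aK (κ : KK n N) : Lam n N :=
  PowerSeries.X ^ rhoK κ * PowerSeries.C (MvPolynomial.monomial (EK κ) 1)

theorem mono_sq_coeff_ne {κ κ' : KK n N} (hne : κ ≠ κ') (p : R0 n N) (s : Sg n N →₀ ℕ) :
    MvPolynomial.coeff (EK κ + (s + s)) (MvPolynomial.monomial (EK κ') 1 * p ^ 2) = 0 := by
  classical
  rw [MvPolynomial.coeff_monomial_mul']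
  split_ifs with hle
  · rw [one_mul, mv_sq_coeff]
    apply Finset.sum_eq_zero
    intro x _
    rw [if_neg]
    intro hx
    apply hne
    apply EK_parity (s := s) (x := x)
    rw [hx, add_tsub_cancel_of_le hle]
  · rfl

theorem mono_sq_coeff_eq (κ : KK n N) (p : R0 n N) (s : Sg n N →₀ ℕ) :
    MvPolynomial.coeff (EK κ + (s + s)) (MvPolynomial.monomial (EK κ) 1 * p ^ 2)
      = (MvPolynomial.coeff s p) ^ 2 := by
  classical
  rw [MvPolynomial.coeff_monomial_mul, one_mul, mv_sq_coeff]
  have hx : ∀ x : Sg n N →₀ ℕ, x + x = s + s ↔ x = s := by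
    intro x
    constructor
    · intro h
      ext k
      have := DFunLike.congr_fun h k
      simp only [Finsupp.add_apply] at this
      omega
    · rintro rfl; rfl
  simp only [hx]
  rw [Finset.sum_ite_eq']
  split_ifs with h
  · rfl
  · rw [MvPolynomial.notMem_support_iff] at h
    rw [h]; ring

theorem aK_indep (y : KK n N → Lam n N) (h : ∑ κ, aK κ * y κ ^ 2 = 0) (κ0 : KK n N) :
    y κ0 = 0 := by
  classical
  have h2 : (2 : R0 n N) = 0 := CharTwo.two_eq_zero
  by_contra hne
  obtain ⟨r, hr⟩ : ∃ r, PowerSeries.coeff r (y κ0) ≠ 0 := by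
    by_contra hcon
    push Not at hcon
    apply hne
    ext r : 1
    rw [hcon r, map_zero]
  obtain ⟨s, hs⟩ : ∃ s, MvPolynomial.coeff s (PowerSeries.coeff r (y κ0)) ≠ 0 := by
    by_contra hcon
    push Not at hcon
    apply hr
    ext s
    rw [hcon s, MvPolynomial.coeff_zero]
  have h1 := congrArg (fun F : Lam n N => MvPolynomial.coeff (EK κ0 + (s + s))
    (PowerSeries.coeff (rhoK κ0 + (r + r)) F)) h
  simp only [map_sum, map_zero, MvPolynomial.coeff_sum, MvPolynomial.coeff_zero] at h1
  rw [Finset.sum_eq_single κ0] at h1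
  · rw [aK, mul_assoc, add_comm (rhoK κ0), PowerSeries.coeff_X_pow_mul, PowerSeries.coeff_C_mul,
      ps_sq_coeff_even h2, mono_sq_coeff_eq] at h1
    exact hs (pow_eq_zero_iff (two_ne_zero) |>.1 h1)
  · intro κ _ hκ
    rw [aK, mul_assoc, PowerSeries.coeff_X_pow_mul']
    split_ifs with hle
    · rw [PowerSeries.coeff_C_mul]
      by_cases ht : ∃ t, rhoK κ0 + (r + r) - rhoK κ = t + t
      · obtain ⟨t, ht⟩ := ht
        rw [ht, ps_sq_coeff_even h2]
        exact mono_sq_coeff_ne (Ne.symm hκ) _ s
      · push Not at ht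
        rw [ps_sq_coeff_odd h2 _ _ ht, mul_zero, MvPolynomial.coeff_zero]
    · rw [MvPolynomial.coeff_zero]
  · intro h; exact absurd (Finset.mem_univ κ0) h

/-! ### expansion of the product of linear forms -/

def a1 (v : VV n N) (o : Option (Fin n)) : Lam n N :=
  PowerSeries.X ^ rho o * PowerSeries.C (MvPolynomial.monomial (E1 v o) 1)

def w1 (v : VV n N) : Option (Fin n) → (Fin n → ℤ)
  | none => Pi.single v.1 1
  | some k => Pi.single k 1

theorem a1_none (v : VV n N) : a1 v none = 1 := by
  simp [a1, rho, E1]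

theorem a1_some (v : VV n N) (k : Fin n) : a1 v (some k) = av v k := by
  simp [a1, rho, E1, av, MvPolynomial.X]

theorem prod_a1 (κ : KK n N) : ∏ v, a1 v (κ v) = aK κ := by
  simp only [a1]
  rw [Finset.prod_mul_distrib, Finset.prod_pow_eq_pow_sum, ← map_prod,
    ← MvPolynomial.monomial_sum_one]
  rfl

theorem iota_Lp_sum (v : VV n N) : iota (Lp v) = ∑ o, emb (a1 v o) * zz (w1 v o) := by
  rw [Fintype.sum_option, a1_none, map_one, one_mul, Lp, map_add, iota_X, map_sum]
  congr 1
  refine Finset.sum_congr rfl fun k _ => ?_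
  rw [map_mul, iota_C, iota_X, a1_some]
  rfl

def term (A : Finset (VV n N)) (v : VV n N) (o : Option (Fin n)) : TT n N :=
  if v ∈ A then emb (a1 v o) * zz (w1 v o) else (if o = none then 1 else 0)

def wK (A : Finset (VV n N)) (κ : KK n N) : Fin n → ℤ :=
  ∑ v, if v ∈ A then w1 v (κ v) else 0

def subK (A : Finset (VV n N)) (κ : KK n N) : Prop := ∀ v, v ∉ A → κ v = none

instance (A : Finset (VV n N)) (κ : KK n N) : Decidable (subK A κ) := by
  unfold subK; infer_instance

theorem prod_term (A : Finset (VV n N)) (κ : KK n N) :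
    ∏ v, term A v (κ v) = if subK A κ then emb (aK κ) * zz (wK A κ) else 0 := by
  split_ifs with h
  · have : ∀ v, term A v (κ v) = emb (a1 v (κ v)) * zz (if v ∈ A then w1 v (κ v) else 0) := by
      intro v
      by_cases hv : v ∈ A
      · simp only [term, if_pos hv]
      · simp only [term, if_neg hv, h v hv, if_true, a1_none, map_one, zz_zero, mul_one]
    rw [Finset.prod_congr rfl fun v _ => this v, Finset.prod_mul_distrib, ← map_prod, prod_a1,
      zz_sum, wK]
  · unfold subK at h
    push Not at h
    obtain ⟨v, hv, hκ⟩ := h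
    apply Finset.prod_eq_zero (Finset.mem_univ v)
    simp only [term, if_neg hv, if_neg hκ]

theorem iota_PL_sum (A : Finset (VV n N)) :
    iota (PL A) = ∑ κ : KK n N, if subK A κ then emb (aK κ) * zz (wK A κ) else 0 := by
  rw [← Finset.sum_congr rfl fun κ _ => prod_term A κ]
  rw [← Fintype.prod_sum]
  rw [PL, map_prod, ← Finset.prod_subset (Finset.subset_univ A)]
  · refine Finset.prod_congr rfl fun v hv => ?_
    rw [iota_Lp_sum]
    refine Finset.sum_congr rfl fun o _ => ?_
    simp only [term, if_pos hv]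
  · intro v _ hv
    simp only [term, if_neg hv]
    simp

theorem exists_sqrt (w : Fin n → ℤ) (F : TT n N) : ∃ y : Lam n N, Res (zz w * F ^ 2) = y ^ 2 := by
  by_cases h : ∃ e : Fin n → ℤ, w = e + e + 1
  · obtain ⟨e, rfl⟩ := h
    exact ⟨_, cart1 e F⟩
  · push Not at h
    exact ⟨0, by rw [cart0 w h]; ring⟩

theorem Wi_eq (A : Finset (VV n N)) : Wi A = iota (PL A) * (Wi A) ^ 2 := by
  rw [pow_two, ← mul_assoc, iota_PL_mul_Wi, one_mul]

theorem aux_ring {S : Type*} [CommRing S] (U b a w W : S) :
    U ^ 2 * b * (a * w * W ^ 2) = a * (b * w * (U * W) ^ 2) := by ring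

theorem aux_ring2 {S : Type*} [CommRing S] (U z W : S) : U * z * W = z * (U * W) := by ring

theorem Phi_sq (A : Finset (VV n N)) (u : PP n N) (c : Fin n →₀ ℕ) :
    Phi A (u ^ 2 * MvPolynomial.monomial c 1)
      = ∑ κ : KK n N, if subK A κ then
          aK κ * Res (zz (ex c + wK A κ) * (iota u * Wi A) ^ 2) else 0 := by
  have h1 : iota (u ^ 2 * MvPolynomial.monomial c 1) * Wi A
      = iota u ^ 2 * zz (ex c) * ((∑ κ : KK n N, if subK A κ then
          emb (aK κ) * zz (wK A κ) else 0) * (Wi A) ^ 2) := by
    rw [← iota_PL_sum, ← Wi_eq, map_mul, map_pow, iota_monomial]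
  rw [Phi_apply, h1, Finset.sum_mul, Finset.mul_sum, Res_sum]
  refine Finset.sum_congr rfl fun κ _ => ?_
  split_ifs with h
  · rw [← Res_emb_mul, ← zz_mul]
    exact congrArg Res (aux_ring _ _ _ _ _)
  · rw [zero_mul, mul_zero, Res_zero]

/-! ### the key theorem -/

def Vm (m : Fin n →₀ ℕ) : Finset (VV n N) := Finset.univ.filter fun v => (v.2 : ℕ) ≤ m v.1

theorem card_Vm (m : Fin n →₀ ℕ) (hN : ∀ i, m i < N) : (Vm m : Finset (VV n N)).card = m.degree + n := by
  classical
  have h1 : (Vm m : Finset (VV n N)).card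
      = ∑ i : Fin n, ((Vm m : Finset (VV n N)).filter fun v => v.1 = i).card := by
    rw [← Finset.card_eq_sum_card_fiberwise]
    intro v _
    exact Finset.mem_univ _
  rw [h1, Finsupp.degree_eq_sum]
  have h2 : ∀ i : Fin n, ((Vm m : Finset (VV n N)).filter fun v => v.1 = i).card = m i + 1 := by
    intro i
    have : ((Vm m : Finset (VV n N)).filter fun v => v.1 = i)
        = (Finset.univ.filter fun j : Fin N => (j : ℕ) < m i + 1).map
          ⟨fun j => (i, j), fun a b h => congrArg Prod.snd h⟩ := by
      ext v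
      simp only [Vm, Finset.mem_filter, Finset.mem_univ, true_and, Finset.mem_map]
      constructor
      · rintro ⟨h1, rfl⟩
        exact ⟨v.2, by omega, rfl⟩
      · rintro ⟨j, hj, rfl⟩
        exact ⟨Nat.lt_succ_iff.mp hj, rfl⟩
    rw [this, Finset.card_map, Fin.card_filter_val_lt]
    have := hN i
    omega
  simp only [h2, Finset.sum_add_distrib]
  simp

theorem exists_dist {ι : Type*} (A : Finset ι) (w : Fin n →₀ ℕ) (hn : 0 < n)
    (h : w.degree = A.card) : ∃ g : ι → Fin n, ∑ v ∈ A, Finsupp.single (g v) 1 = w := by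
  classical
  induction A using Finset.induction_on generalizing w with
  | empty =>
    refine ⟨fun _ => ⟨0, hn⟩, ?_⟩
    rw [Finset.card_empty, Finsupp.degree_eq_zero_iff] at h
    rw [h, Finset.sum_empty]
  | insert a s ha ih =>
    rw [Finset.card_insert_of_notMem ha] at h
    obtain ⟨i, hi⟩ : ∃ i, w i ≠ 0 := by
      by_contra hcon
      push Not at hcon
      have : w = 0 := by ext i; simpa using hcon i
      rw [this] at h
      simp at h
    have hle : Finsupp.single i 1 ≤ w := by
      rw [Finsupp.single_le_iff]; omega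
    have hw : w = (w - Finsupp.single i 1) + Finsupp.single i 1 := (tsub_add_cancel_of_le hle).symm
    have hd : (w - Finsupp.single i 1).degree = s.card := by
      have := congrArg Finsupp.degree hw
      rw [map_add, Finsupp.degree_single] at this
      omega
    obtain ⟨g, hg⟩ := ih _ hd
    refine ⟨fun v => if v = a then i else g v, ?_⟩
    rw [Finset.sum_insert ha]
    beta_reduce
    rw [if_pos rfl]
    rw [Finset.sum_congr rfl (g := fun v => Finsupp.single (g v) 1), hg]
    · rw [add_comm]; exact hw.symm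
    · intro v hv
      rw [if_neg]
      rintro rfl
      exact ha hv

theorem exists_le_degree (f : Fin n →₀ ℕ) (k : ℕ) (hk : k ≤ f.degree) :
    ∃ c ≤ f, c.degree = k := by
  induction k with
  | zero => exact ⟨0, by simp, by simp⟩
  | succ k ih =>
    obtain ⟨c, hc, hd⟩ := ih (by omega)
    obtain ⟨i, hi⟩ : ∃ i, c i < f i := by
      by_contra hcon
      push Not at hcon
      have : f ≤ c := fun i => hcon i
      have h1 : f = c := le_antisymm this hc
      rw [h1] at hk
      omega
    refine ⟨c + Finsupp.single i 1, ?_, by rw [map_add, Finsupp.degree_single, hd]⟩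
    intro j
    rw [Finsupp.add_apply, Finsupp.single_apply]
    split_ifs with h
    · subst h; omega
    · simpa using hc j

theorem key (hn : 0 < n) (D : Finset (Fin n →₀ ℕ)) (d : ℕ) (hD : ∀ m ∈ D, m.degree = d)
    (hN : ∀ m ∈ D, ∀ i, m i < N) (q : ℕ) (hq : q + q ≤ d) (u : PP n N)
    (hu : ∀ c : Fin n →₀ ℕ, c.degree = d - (q + q) →
      ∑ m ∈ D, Phi (Vm m) (u ^ 2 * MvPolynomial.monomial c 1) = 0)
    (m0 : Fin n →₀ ℕ) (hm0 : m0 ∈ D) (e : Fin n →₀ ℕ) (he : e.degree = d - q) :
    Phi (Vm m0) (u * MvPolynomial.monomial e 1) = 0 := by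
  classical
  -- the target exponent `2 e + 1`
  set one' : Fin n →₀ ℕ := Finsupp.equivFunOnFinite.symm (fun _ => 1) with hone
  have hone' : one'.degree = n := by
    rw [Finsupp.degree_eq_sum]; simp [hone]
  have hdeg : (e + e + one').degree = 2 * (d - q) + n := by
    rw [map_add, map_add, he, hone']; ring
  obtain ⟨c, hc, hcd⟩ := exists_le_degree (e + e + one') (d - (q + q)) (by omega)
  set w := e + e + one' - c with hw
  have hwc : w + c = e + e + one' := tsub_add_cancel_of_le hc
  have hwd : w.degree = (Vm m0 : Finset (VV n N)).card := by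
    rw [card_Vm m0 (hN m0 hm0), hD m0 hm0]
    have := congrArg Finsupp.degree hwc
    rw [map_add, hcd, hdeg] at this
    omega
  obtain ⟨g, hg⟩ := exists_dist (Vm m0 : Finset (VV n N)) w hn hwd
  set κ0 : KK n N := fun v => if v ∈ (Vm m0 : Finset (VV n N)) then some (g v) else none with hκ0
  -- expand
  have hsum := hu c hcd
  simp only [Phi_sq] at hsum
  rw [Finset.sum_comm] at hsum
  -- write the coefficient of each `aK κ` as a square
  choose y hy using fun (m : Fin n →₀ ℕ) (κ : KK n N) =>
    exists_sqrt (ex c + wK (Vm m) κ) (iota u * Wi (Vm m) : TT n N)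
  have h2 : (2 : Lam n N) = 0 := by
    have : (2 : Lam n N) = PowerSeries.C (2 : R0 n N) := (map_ofNat _ 2).symm
    have h2' : (2 : R0 n N) = 0 := CharTwo.two_eq_zero
    rw [this, h2', map_zero]
  have sqsum : ∀ (s : Finset (Fin n →₀ ℕ)) (f : (Fin n →₀ ℕ) → Lam n N),
      (∑ m ∈ s, f m) ^ 2 = ∑ m ∈ s, f m ^ 2 := by
    intro s f
    induction s using Finset.induction_on with
    | empty => simp
    | insert a s ha ih =>
      rw [Finset.sum_insert ha, Finset.sum_insert ha, add_sq, ih, h2]
      ring
  have hterm : ∀ κ : KK n N, (∑ m ∈ D, if subK (Vm m) κ then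
      aK κ * Res (zz (ex c + wK (Vm m) κ) * (iota u * Wi (Vm m)) ^ 2) else 0)
      = aK κ * (∑ m ∈ D, if subK (Vm m) κ then y m κ else 0) ^ 2 := by
    intro κ
    rw [sqsum, Finset.mul_sum]
    refine Finset.sum_congr rfl fun m _ => ?_
    split_ifs
    · rw [hy]
    · ring
  rw [Finset.sum_congr rfl fun κ _ => hterm κ] at hsum
  have h0 := aK_indep _ hsum κ0
  rw [Finset.sum_eq_single m0] at h0
  · have hsub : subK (Vm m0) κ0 := by
      intro v hv
      simp only [hκ0, if_neg hv]
    rw [if_pos hsub] at h0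
    have h3 := hy m0 κ0
    rw [h0] at h3
    have hwK : ex c + wK (Vm m0) κ0 = ex e + ex e + 1 := by
      have : wK (Vm m0) κ0 = ex w := by
        rw [← hg, wK]
        funext k
        rw [Finset.sum_apply, ex, Finsupp.finsetSum_apply]
        push_cast
        rw [← Finset.sum_subset (Finset.subset_univ (Vm m0 : Finset (VV n N)))]
        · refine Finset.sum_congr rfl fun v hv => ?_
          simp only [hκ0, if_pos hv, w1]
          rw [Finsupp.single_apply, Pi.single_apply]
          by_cases h : k = g v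
          · rw [if_pos h, if_pos h.symm]; rfl
          · rw [if_neg h, if_neg (Ne.symm h)]; rfl
        · intro v _ hv
          rw [if_neg hv]; rfl
      rw [this]
      funext k
      have := DFunLike.congr_fun hwc k
      simp only [Finsupp.add_apply, hone, Finsupp.equivFunOnFinite_symm_apply_apply] at this
      simp only [ex, Pi.add_apply, Pi.one_apply]
      omega
    rw [hwK, cart1] at h3
    have h4 : Res (zz (ex e) * (iota u * Wi (Vm m0)) : TT n N) = 0 := by
      have : Res (zz (ex e) * (iota u * Wi (Vm m0)) : TT n N) ^ 2 = 0 := by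
        rw [h3]; exact zero_pow two_ne_zero
      exact pow_eq_zero_iff (two_ne_zero) |>.1 this
    have h5 : iota u * zz (ex e) * Wi (Vm m0) = zz (ex e) * (iota u * Wi (Vm m0) : TT n N) :=
      aux_ring2 _ _ _
    rw [Phi_apply, map_mul, iota_monomial, h5]
    exact h4
  · intro m hm hne
    rw [if_neg]
    intro hsub
    apply hne
    -- Vm m0 ⊆ Vm m
    have hle : m0 ≤ m := by
      intro i
      have hi := hN m0 hm0 i
      by_contra hcon
      push Not at hcon
      have hv : ((i, ⟨m0 i, hi⟩) : VV n N) ∉ (Vm m : Finset (VV n N)) := by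
        simp [Vm]; omega
      have hv0 : ((i, ⟨m0 i, hi⟩) : VV n N) ∈ (Vm m0 : Finset (VV n N)) := by
        simp [Vm]
      have := hsub _ hv
      simp only [hκ0, if_pos hv0] at this
      exact absurd this (by simp)
    have hmd : m.degree = m0.degree := by rw [hD m hm, hD m0 hm0]
    have hmm : m0 + (m - m0) = m := add_tsub_cancel_of_le hle
    have := congrArg Finsupp.degree hmm
    rw [map_add, hmd] at this
    have h5 : (m - m0).degree = 0 := by omega
    rw [Finsupp.degree_eq_zero_iff] at h5
    rw [← hmm, h5, add_zero]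
  · intro h; exact absurd hm0 h

end

end Pool.Agent.R104.PO
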