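import Pool.Agent.R104.PO.Res

/-! The residue functionals `Phi`. -/

namespace Pool.Agent.R104.PO

open Finset

noncomputable section

variable (n N : ℕ)

abbrev VV := Fin n × Fin N
abbrev Sg := VV n N × Fin n
abbrev R0 := MvPolynomial (Sg n N) (ZMod 2)
abbrev Lam := PowerSeries (R0 n N)
abbrev LL := AddMonoidAlgebra (R0 n N) (Fin n → ℤ)
abbrev TT := PowerSeries (LL n N)
abbrev PP := MvPolynomial (Fin n) (Lam n N)

instance : CharP (LL n N) 2 :=
  charP_of_injective_algebraMap (R := R0 n N) (A := LL n N) (by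
    intro a b h
    have h' := congrArg (fun f : LL n N => f.coeff 0) h
    simpa using h') 2

variable {n N}

/-- exponents -1 -/
def m1 : Fin n → ℤ := fun _ => -1

def Res (F : TT n N) : Lam n N := PowerSeries.mk fun r => (PowerSeries.coeff r F).coeff m1

def emb : Lam n N →+* TT n N := PowerSeries.map (algebraMap (R0 n N) (LL n N))

theorem coeff_Res (F : TT n N) (r : ℕ) :
    PowerSeries.coeff r (Res F) = (PowerSeries.coeff r F).coeff m1 := by
  simp [Res]

theorem Res_add (F G : TT n N) : Res (F + G) = Res F + Res G := by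
  ext r : 1
  simp [coeff_Res]

theorem Res_zero : Res (0 : TT n N) = 0 := by
  ext r : 1
  simp [coeff_Res]

theorem Res_sum {ι : Type*} (s : Finset ι) (F : ι → TT n N) :
    Res (∑ i ∈ s, F i) = ∑ i ∈ s, Res (F i) := by
  classical
  induction s using Finset.induction_on with
  | empty => simp [Res_zero]
  | insert a s ha ih => rw [Finset.sum_insert ha, Finset.sum_insert ha, Res_add, ih]

theorem Res_emb_mul (c : Lam n N) (F : TT n N) : Res (emb c * F) = c * Res F := by
  ext r : 1
  rw [coeff_Res, PowerSeries.coeff_mul, PowerSeries.coeff_mul, AddMonoidAlgebra.coeff_sum,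
    Finsupp.finsetSum_apply]
  refine Finset.sum_congr rfl fun p _ => ?_
  rw [coeff_Res, emb, PowerSeries.coeff_map]
  rw [← Algebra.smul_def, AddMonoidAlgebra.coeff_smul_apply, smul_eq_mul]

def zz (w : Fin n → ℤ) : TT n N := PowerSeries.C (AddMonoidAlgebra.single w 1)

theorem zz_mul (w w' : Fin n → ℤ) : (zz w * zz w' : TT n N) = zz (w + w') := by
  rw [zz, zz, zz, ← map_mul, AddMonoidAlgebra.single_mul_single, one_mul]

theorem zz_zero : (zz 0 : TT n N) = 1 := by
  rw [zz, ← AddMonoidAlgebra.one_def, map_one]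

theorem coeff_zz_mul (w : Fin n → ℤ) (F : TT n N) (r : ℕ) (x : Fin n → ℤ) :
    (PowerSeries.coeff r (zz w * F)).coeff x = (PowerSeries.coeff r F).coeff (-w + x) := by
  rw [zz, PowerSeries.coeff_C_mul, AddMonoidAlgebra.coeff_single_mul_apply, one_mul]

theorem cart1 (e : Fin n → ℤ) (F : TT n N) :
    Res (zz (e + e + 1) * F ^ 2) = (Res (zz e * F)) ^ 2 := by
  have h2 : (2 : LL n N) = 0 := CharTwo.two_eq_zero
  have h2' : (2 : R0 n N) = 0 := CharTwo.two_eq_zero
  ext r : 1
  rw [coeff_Res, coeff_zz_mul]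
  by_cases hr : ∃ i, r = i + i
  · obtain ⟨i, rfl⟩ := hr
    rw [ps_sq_coeff_even h2, ps_sq_coeff_even h2', coeff_Res, coeff_zz_mul, sq_coeff]
    have hx : ∀ x : Fin n → ℤ, x + x = -(e + e + 1) + m1 ↔ x = -e + m1 := by
      intro x
      constructor
      · intro h
        funext k
        have := congrFun h k
        simp [m1] at this ⊢
        omega
      · rintro rfl
        funext k
        simp [m1]
        ring
    simp only [hx]
    rw [Finset.sum_ite_eq']
    split_ifs with hs
    · rfl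
    · rw [Finsupp.notMem_support_iff] at hs
      rw [hs]
      ring
  · push Not at hr
    rw [ps_sq_coeff_odd h2 F r hr, ps_sq_coeff_odd h2' _ r hr]
    simp

theorem cart0 (w : Fin n → ℤ) (hw : ∀ e : Fin n → ℤ, w ≠ e + e + 1) (F : TT n N) :
    Res (zz w * F ^ 2) = 0 := by
  have h2 : (2 : LL n N) = 0 := CharTwo.two_eq_zero
  ext r : 1
  rw [coeff_Res, coeff_zz_mul]
  by_cases hr : ∃ i, r = i + i
  · obtain ⟨i, rfl⟩ := hr
    rw [ps_sq_coeff_even h2, sq_coeff]
    simp only [map_zero]
    apply Finset.sum_eq_zero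
    intro x _
    rw [if_neg]
    intro h
    apply hw (-x - 1)
    funext k
    have := congrFun h k
    simp [m1] at this ⊢
    omega
  · push Not at hr
    rw [ps_sq_coeff_odd h2 F r hr]
    simp

/-! ### The linear forms -/

/-- coefficient variable of the linear forms -/
def av (v : VV n N) (k : Fin n) : Lam n N := PowerSeries.X * PowerSeries.C (MvPolynomial.X (v, k))

def Lp (v : VV n N) : PP n N := MvPolynomial.X v.1 + ∑ k, MvPolynomial.C (av v k) * MvPolynomial.X k

def iota : PP n N →+* TT n N := MvPolynomial.eval₂Hom emb (fun i => zz (Pi.single i 1))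

def NN (v : VV n N) : LL n N := ∑ k, AddMonoidAlgebra.single (Pi.single k 1) (MvPolynomial.X (v, k))

def GG (v : VV n N) : TT n N :=
  PowerSeries.mk fun r => NN v ^ r * AddMonoidAlgebra.single (-((r : ℤ) + 1) • Pi.single v.1 1) 1

theorem iota_X (i : Fin n) : iota (N := N) (MvPolynomial.X i) = zz (Pi.single i 1) := by
  simp [iota]

theorem iota_C (c : Lam n N) : iota (MvPolynomial.C c) = emb c := by
  simp [iota]

theorem emb_av (v : VV n N) (k : Fin n) :
    emb (av v k) = PowerSeries.X *
      PowerSeries.C (algebraMap (R0 n N) (LL n N) (MvPolynomial.X (v, k))) := by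
  simp [emb, av]

theorem iota_Lp (v : VV n N) :
    iota (Lp v) = PowerSeries.C (AddMonoidAlgebra.single (Pi.single v.1 1) 1)
      + PowerSeries.X * PowerSeries.C (NN v) := by
  rw [Lp, map_add, iota_X, map_sum, NN, map_sum, Finset.mul_sum, zz]
  congr 1
  refine Finset.sum_congr rfl fun k _ => ?_
  rw [map_mul, iota_C, iota_X, emb_av, zz, mul_assoc, ← map_mul]
  congr 2
  rw [← Algebra.smul_def, AddMonoidAlgebra.smul_single, smul_eq_mul, mul_one]

theorem iota_Lp_mul_GG (v : VV n N) : iota (Lp v) * GG v = 1 := by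
  have h2 : (2 : LL n N) = 0 := CharTwo.two_eq_zero
  ext r : 1
  rw [iota_Lp, add_mul, map_add, PowerSeries.coeff_C_mul, mul_assoc]
  cases r with
  | zero =>
    rw [PowerSeries.coeff_zero_X_mul, GG, PowerSeries.coeff_mk, pow_zero, one_mul,
      AddMonoidAlgebra.single_mul_single]
    simp [AddMonoidAlgebra.one_def]
  | succ r =>
    rw [PowerSeries.coeff_succ_X_mul, PowerSeries.coeff_C_mul, GG, PowerSeries.coeff_mk,
      PowerSeries.coeff_mk, PowerSeries.coeff_one, if_neg (Nat.succ_ne_zero r), pow_succ]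
    have : (AddMonoidAlgebra.single (Pi.single v.1 1) 1 : LL n N) * (NN v ^ r * NN v *
        AddMonoidAlgebra.single (-(((r + 1 : ℕ) : ℤ) + 1) • Pi.single v.1 1) 1)
        = NN v * (NN v ^ r * (AddMonoidAlgebra.single (Pi.single v.1 1) 1 *
        AddMonoidAlgebra.single (-(((r + 1 : ℕ) : ℤ) + 1) • Pi.single v.1 1) 1)) := by ring
    rw [this, AddMonoidAlgebra.single_mul_single, one_mul]
    have h3 : (Pi.single v.1 1 + -(((r + 1 : ℕ) : ℤ) + 1) • Pi.single v.1 1 : Fin n → ℤ)
        = -((r : ℤ) + 1) • Pi.single v.1 1 := by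
      push_cast
      module
    rw [h3, ← two_mul, h2, zero_mul]

/-- product of the inverses -/
def Wi (A : Finset (VV n N)) : TT n N := ∏ v ∈ A, GG v

def PL (A : Finset (VV n N)) : PP n N := ∏ v ∈ A, Lp v

theorem iota_PL_mul_Wi (A : Finset (VV n N)) : iota (PL A) * Wi A = 1 := by
  rw [PL, Wi, map_prod, ← Finset.prod_mul_distrib]
  exact Finset.prod_eq_one fun v _ => iota_Lp_mul_GG v

/-- the residue functional -/
def Phi (A : Finset (VV n N)) : PP n N →ₗ[Lam n N] Lam n N where
  toFun h := Res (iota h * Wi A)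
  map_add' g h := by rw [map_add, add_mul, Res_add]
  map_smul' c h := by
    rw [MvPolynomial.smul_eq_C_mul, map_mul, iota_C, mul_assoc, Res_emb_mul]
    rfl

theorem Phi_apply (A : Finset (VV n N)) (h : PP n N) : Phi A h = Res (iota h * Wi A) := rfl

theorem Phi_PL_mul {A B : Finset (VV n N)} (hB : B ⊆ A) (h : PP n N) :
    Phi A (PL B * h) = Phi (A \ B) h := by
  rw [Phi_apply, Phi_apply, map_mul]
  congr 1
  have : Wi A = Wi (A \ B) * Wi B := by
    rw [Wi, Wi, Wi, Finset.prod_sdiff hB]
  rw [this]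
  calc iota (PL B) * iota h * (Wi (A \ B) * Wi B)
      = (iota (PL B) * Wi B) * (iota h * Wi (A \ B)) := by ring
    _ = _ := by rw [iota_PL_mul_Wi, one_mul]

end

end Pool.Agent.R104.PO
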