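import Mathlib

/-! Residues along products of generic linear forms, in characteristic two. -/

namespace Pool.Agent.R104.PO

open Finset

noncomputable section

/-! ### Squares in characteristic two -/

theorem sq_coeff {R G : Type*} [CommRing R] [CharP R 2] [AddCommMonoid G]
    (f : AddMonoidAlgebra R G) (y : G) [DecidableEq G] :
    (f ^ 2).coeff y = ∑ x ∈ f.coeff.support, if x + x = y then (f.coeff x) ^ 2 else 0 := by
  have h2 : (2 : AddMonoidAlgebra R G) = 0 := by
    have : (2 : AddMonoidAlgebra R G) = algebraMap R _ (2 : R) := (map_ofNat _ 2).symm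
    rw [this, CharTwo.two_eq_zero, map_zero]
  have key : ∀ s : Finset G, (∑ x ∈ s, AddMonoidAlgebra.single x (f.coeff x)) ^ 2
      = ∑ x ∈ s, AddMonoidAlgebra.single (x + x) ((f.coeff x) ^ 2) := by
    intro s
    induction s using Finset.cons_induction with
    | empty => simp
    | cons a s ha ih =>
      rw [Finset.sum_cons, Finset.sum_cons, add_sq, ih, h2, AddMonoidAlgebra.single_pow]
      simp [two_smul]
  have hf : f = ∑ x ∈ f.coeff.support, AddMonoidAlgebra.single x (f.coeff x) :=
    (AddMonoidAlgebra.sum_coeff_single f).symm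
  conv_lhs => rw [hf]
  rw [key, AddMonoidAlgebra.coeff_sum, Finsupp.finsetSum_apply]
  refine Finset.sum_congr rfl fun x _ => ?_
  rw [AddMonoidAlgebra.coeff_single, Finsupp.single_apply]

theorem mv_sq_coeff {σ : Type*} (f : MvPolynomial σ (ZMod 2)) (y : σ →₀ ℕ) [DecidableEq σ] :
    (f ^ 2).coeff y = ∑ x ∈ f.support, if x + x = y then (f.coeff x) ^ 2 else 0 := by
  have h2 : (2 : MvPolynomial σ (ZMod 2)) = 0 := CharTwo.two_eq_zero
  have key : ∀ s : Finset (σ →₀ ℕ), (∑ x ∈ s, MvPolynomial.monomial x (f.coeff x)) ^ 2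
      = ∑ x ∈ s, MvPolynomial.monomial (x + x) ((f.coeff x) ^ 2) := by
    intro s
    induction s using Finset.cons_induction with
    | empty => simp
    | cons a s ha ih =>
      rw [Finset.sum_cons, Finset.sum_cons, add_sq, ih, h2, MvPolynomial.monomial_pow]
      simp [two_smul]
  conv_lhs => rw [f.as_sum]
  rw [key, MvPolynomial.coeff_sum]
  refine Finset.sum_congr rfl fun x _ => ?_
  rw [MvPolynomial.coeff_monomial]

theorem ps_sq_coeff_odd {S : Type*} [CommRing S] (h2 : (2 : S) = 0) (F : PowerSeries S) (r : ℕ)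
    (hr : ∀ i, r ≠ i + i) : PowerSeries.coeff r (F ^ 2) = 0 := by
  rw [pow_two, PowerSeries.coeff_mul]
  refine Finset.sum_involution (fun p _ => p.swap) ?_ ?_ ?_ ?_
  · intro p _
    have : (PowerSeries.coeff p.1) F * (PowerSeries.coeff p.2) F
        + (PowerSeries.coeff p.2) F * (PowerSeries.coeff p.1) F
        = 2 * ((PowerSeries.coeff p.1) F * (PowerSeries.coeff p.2) F) := by ring
    simp only [Prod.fst_swap, Prod.snd_swap]
    rw [this, h2, zero_mul]
  · intro p hp _ heq
    rw [Finset.HasAntidiagonal.mem_antidiagonal] at hp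
    have : p.1 = p.2 := by
      have := congrArg Prod.snd heq
      simpa using this
    exact hr p.2 (by rw [← hp, this])
  · intro p hp
    rw [Finset.HasAntidiagonal.mem_antidiagonal] at hp ⊢
    simp [add_comm, hp]
  · intro p _
    exact Prod.swap_swap p

theorem ps_sq_coeff_even {S : Type*} [CommRing S] (h2 : (2 : S) = 0) (F : PowerSeries S) (r : ℕ) :
    PowerSeries.coeff (r + r) (F ^ 2) = (PowerSeries.coeff r F) ^ 2 := by
  rw [pow_two, PowerSeries.coeff_mul]
  have hmem : ((r, r) : ℕ × ℕ) ∈ Finset.HasAntidiagonal.antidiagonal (r + r) := by simp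
  rw [← Finset.add_sum_erase _ _ hmem]
  simp only
  rw [← pow_two]
  have : ∑ x ∈ (Finset.HasAntidiagonal.antidiagonal (r + r)).erase (r, r),
      (PowerSeries.coeff x.1) F * (PowerSeries.coeff x.2) F = 0 := by
    refine Finset.sum_involution (fun p _ => p.swap) ?_ ?_ ?_ ?_
    · intro p _
      have : (PowerSeries.coeff p.1) F * (PowerSeries.coeff p.2) F
          + (PowerSeries.coeff p.2) F * (PowerSeries.coeff p.1) F
          = 2 * ((PowerSeries.coeff p.1) F * (PowerSeries.coeff p.2) F) := by ring
      simp only [Prod.fst_swap, Prod.snd_swap]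
      rw [this, h2, zero_mul]
    · intro p hp _ heq
      rw [Finset.mem_erase, Finset.HasAntidiagonal.mem_antidiagonal] at hp
      have h1 : p.1 = p.2 := by
        have := congrArg Prod.snd heq
        simpa using this
      apply hp.1
      ext
      · simp; omega
      · simp; omega
    · intro p hp
      rw [Finset.mem_erase, Finset.HasAntidiagonal.mem_antidiagonal] at hp ⊢
      refine ⟨?_, by simp [add_comm, hp.2]⟩
      intro h
      apply hp.1
      have := congrArg Prod.swap h
      simpa using this
    · intro p _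
      exact Prod.swap_swap p
  rw [this, add_zero]

end

end Pool.Agent.R104.PO
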