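import Pool.Agent.R104.PO.Key

/-! Products of linear forms span all forms. -/

namespace Pool.Agent.R104.PO

open Finset

noncomputable section

variable {n N : ℕ}

def below (α : Fin n →₀ ℕ) : Finset (VV n N) := Finset.univ.filter fun v => (v.2 : ℕ) < α v.1

theorem below_add (α : Fin n →₀ ℕ) (i : Fin n) (h : α i < N) :
    (below (α + Finsupp.single i 1) : Finset (VV n N)) = insert (i, ⟨α i, h⟩) (below α) := by
  classical
  ext v
  simp only [below, Finset.mem_filter, Finset.mem_univ, true_and, Finset.mem_insert,
    Finsupp.add_apply, Finsupp.single_apply]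
  constructor
  · intro hv
    by_cases hi : i = v.1
    · rw [if_pos hi] at hv
      by_cases h2 : (v.2 : ℕ) = α v.1
      · left
        ext
        · simp [hi]
        · simp [hi, h2]
      · right; omega
    · rw [if_neg hi] at hv
      right; omega
  · rintro (rfl | hv)
    · simp
    · split_ifs <;> omega

theorem notMem_below (α : Fin n →₀ ℕ) (i : Fin n) (h : α i < N) :
    ((i, ⟨α i, h⟩) : VV n N) ∉ (below α : Finset (VV n N)) := by
  simp [below]

theorem PL_below_add (α : Fin n →₀ ℕ) (i : Fin n) (h : α i < N) :
    PL (below (α + Finsupp.single i 1) : Finset (VV n N)) = Lp (i, ⟨α i, h⟩) * PL (below α) := by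
  classical
  rw [below_add α i h, PL, Finset.prod_insert (notMem_below α i h), PL]

/-- matrix of a transversal -/
def BB (j : Fin n → Fin N) : Matrix (Fin n) (Fin n) (Lam n N) :=
  fun i k => (if i = k then 1 else 0) + av (i, j i) k

theorem isUnit_det_BB (j : Fin n → Fin N) : IsUnit (BB j).det := by
  rw [PowerSeries.isUnit_iff_constantCoeff]
  have : PowerSeries.constantCoeff (BB j).det = 1 := by
    rw [RingHom.map_det]
    have h : (PowerSeries.constantCoeff (R := R0 n N)).mapMatrix (BB j) = 1 := by
      ext i k : 2
      rw [RingHom.mapMatrix_apply, Matrix.map_apply, BB, Matrix.one_apply]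
      split_ifs <;> simp [av]
    rw [h, Matrix.det_one]
  rw [this]
  exact isUnit_one

theorem Lp_eq_BB (j : Fin n → Fin N) (i : Fin n) :
    Lp (i, j i) = ∑ k, (BB j i k) • (MvPolynomial.X k : PP n N) := by
  rw [Lp]
  simp only [BB, add_smul, Finset.sum_add_distrib]
  congr 1
  · rw [Finset.sum_eq_single i]
    · rw [if_pos rfl, one_smul]
    · intro k _ hk
      rw [if_neg (Ne.symm hk), zero_smul]
    · intro h; exact absurd (Finset.mem_univ i) h
  · refine Finset.sum_congr rfl fun k _ => ?_
    rw [MvPolynomial.smul_eq_C_mul]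

theorem X_eq_sum (j : Fin n → Fin N) (k : Fin n) :
    (MvPolynomial.X k : PP n N) = ∑ i, ((BB j)⁻¹ k i) • Lp (i, j i) := by
  have h := Matrix.nonsing_inv_mul (BB j) (isUnit_det_BB j)
  simp only [Lp_eq_BB, Finset.smul_sum, smul_smul]
  rw [Finset.sum_comm]
  simp only [← Finset.sum_smul]
  have h2 : ∀ l, ∑ i, (BB j)⁻¹ k i * BB j i l = if k = l then 1 else 0 := by
    intro l
    have := congrFun (congrFun h k) l
    rw [Matrix.mul_apply, Matrix.one_apply] at this
    exact this
  simp only [h2, ite_smul, one_smul, zero_smul]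
  rw [Finset.sum_ite_eq, if_pos (Finset.mem_univ k)]

theorem monomial_mem_span (p : ℕ) (hp : p ≤ N) (e : Fin n →₀ ℕ) (he : e.degree = p) :
    (MvPolynomial.monomial e 1 : PP n N) ∈
      Submodule.span (Lam n N) {g | ∃ α : Fin n →₀ ℕ, α.degree = p ∧ g = PL (below α)} := by
  classical
  induction p generalizing e with
  | zero =>
    rw [Finsupp.degree_eq_zero_iff] at he
    subst he
    apply Submodule.subset_span
    refine ⟨0, by simp, ?_⟩
    have : (below 0 : Finset (VV n N)) = ∅ := by
      simp [below]
    rw [this, PL, Finset.prod_empty]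
    rfl
  | succ p ih =>
    obtain ⟨k, hk⟩ : ∃ k, e k ≠ 0 := by
      by_contra hcon
      push Not at hcon
      have : e = 0 := by ext i; simpa using hcon i
      rw [this] at he
      simp at he
    have hle : Finsupp.single k 1 ≤ e := by
      rw [Finsupp.single_le_iff]; omega
    have hw : (e - Finsupp.single k 1) + Finsupp.single k 1 = e := tsub_add_cancel_of_le hle
    have hd : (e - Finsupp.single k 1).degree = p := by
      have := congrArg Finsupp.degree hw
      rw [map_add, Finsupp.degree_single] at this
      omega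
    have h1 := ih (by omega) _ hd
    have h2 : (MvPolynomial.monomial e 1 : PP n N)
        = MvPolynomial.X k * MvPolynomial.monomial (e - Finsupp.single k 1) 1 := by
      rw [MvPolynomial.X, MvPolynomial.monomial_mul, one_mul, add_comm, hw]
    rw [h2]
    have h3 : (MvPolynomial.X k * MvPolynomial.monomial (e - Finsupp.single k 1) 1 : PP n N) ∈
        (Submodule.span (Lam n N) {g : PP n N | ∃ α : Fin n →₀ ℕ, α.degree = p ∧
          g = PL (below α)}).map (LinearMap.mulLeft (Lam n N) (MvPolynomial.X k)) :=
      Submodule.mem_map_of_mem (f := LinearMap.mulLeft (Lam n N) (MvPolynomial.X k : PP n N)) h1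
    rw [Submodule.map_span] at h3
    refine Submodule.span_le.2 ?_ h3
    rintro _ ⟨_, ⟨α, hα, rfl⟩, rfl⟩
    have hαN : ∀ i, α i < N := by
      intro i
      have : α i ≤ α.degree := Finsupp.le_degree i α
      omega
    simp only [LinearMap.mulLeft_apply, SetLike.mem_coe]
    rw [X_eq_sum (fun i => ⟨α i, hαN i⟩) k, Finset.sum_mul]
    refine Submodule.sum_mem _ fun i _ => ?_
    rw [smul_mul_assoc, ← PL_below_add α i (hαN i)]
    refine Submodule.smul_mem _ _ (Submodule.subset_span ⟨_, ?_, rfl⟩)
    rw [map_add, Finsupp.degree_single, hα]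

/-! ### homogeneity of the products -/

theorem Lp_homog (v : VV n N) : (Lp v).IsHomogeneous 1 := by
  rw [Lp]
  apply MvPolynomial.IsHomogeneous.add (MvPolynomial.isHomogeneous_X _ _)
  apply MvPolynomial.IsHomogeneous.sum
  intro k _
  have := (MvPolynomial.isHomogeneous_C (Fin n) (av v k)).mul (MvPolynomial.isHomogeneous_X (Lam n N) k)
  rwa [zero_add] at this

theorem PL_homog (A : Finset (VV n N)) : (PL A).IsHomogeneous A.card := by
  have := MvPolynomial.IsHomogeneous.prod A Lp (fun _ => 1) (fun v _ => Lp_homog v)
  rw [Finset.sum_const, smul_eq_mul, mul_one] at this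
  exact this

theorem card_below (α : Fin n →₀ ℕ) (hN : ∀ i, α i ≤ N) :
    (below α : Finset (VV n N)).card = α.degree := by
  classical
  have h1 : (below α : Finset (VV n N)).card
      = ∑ i : Fin n, ((below α : Finset (VV n N)).filter fun v => v.1 = i).card := by
    rw [← Finset.card_eq_sum_card_fiberwise]
    intro v _
    exact Finset.mem_univ _
  rw [h1, Finsupp.degree_eq_sum]
  refine Finset.sum_congr rfl fun i _ => ?_
  have : ((below α : Finset (VV n N)).filter fun v => v.1 = i)
      = (Finset.univ.filter fun j : Fin N => (j : ℕ) < α i).map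
        ⟨fun j => (i, j), fun a b h => congrArg Prod.snd h⟩ := by
    ext v
    simp only [below, Finset.mem_filter, Finset.mem_univ, true_and, Finset.mem_map]
    constructor
    · rintro ⟨h1, rfl⟩
      exact ⟨v.2, h1, rfl⟩
    · rintro ⟨j, hj, rfl⟩
      exact ⟨hj, rfl⟩
  rw [this, Finset.card_map, Fin.card_filter_val_lt]
  have := hN i
  omega

/-- expansion of a homogeneous polynomial in monomials -/
theorem homog_eq_sum (g : PP n N) (p : ℕ) (hg : g.IsHomogeneous p) :
    g = ∑ e ∈ g.support, MvPolynomial.coeff e g • (MvPolynomial.monomial e 1 : PP n N) ∧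
      ∀ e ∈ g.support, e.degree = p := by
  constructor
  · conv_lhs => rw [g.as_sum]
    refine Finset.sum_congr rfl fun e _ => ?_
    rw [MvPolynomial.smul_monomial, smul_eq_mul, mul_one]
  · intro e he
    rw [MvPolynomial.mem_support_iff] at he
    have := hg he
    rw [Finsupp.degree_eq_weight_one (R := ℕ)]
    exact this

end

end Pool.Agent.R104.PO
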