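import Mathlib

/-! Standard monomials of a graded module: greedy bases. -/

namespace Pool.Agent.R104.PO

open Finset

theorem finrank_insert {K E : Type*} [Field K] [AddCommGroup E] [Module K E] (S : Set E)
    (hS : S.Finite) (v : E) (hv : v ∉ Submodule.span K S) :
    Module.finrank K (Submodule.span K (insert v S)) = Module.finrank K (Submodule.span K S) + 1 := by
  have : FiniteDimensional K (Submodule.span K S) := FiniteDimensional.span_of_finite K hS
  have : FiniteDimensional K (Submodule.span K {v}) :=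
    FiniteDimensional.span_of_finite K (Set.finite_singleton v)
  have hv0 : v ≠ 0 := fun h => hv (h ▸ Submodule.zero_mem _)
  have h1 := Submodule.finrank_sup_add_finrank_inf_eq (Submodule.span K {v}) (Submodule.span K S)
  have h2 : Submodule.span K {v} ⊓ Submodule.span K S = ⊥ := by
    rw [← disjoint_iff, disjoint_comm, Submodule.disjoint_span_singleton' hv0]
    exact hv
  rw [h2, finrank_bot, finrank_span_singleton hv0] at h1
  rw [Submodule.span_insert]
  omega

theorem greedy {K E ι : Type*} [Field K] [AddCommGroup E] [Module K E] [LinearOrder ι]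
    (x : ι → E) (s : Finset ι) [DecidablePred fun i => x i ∉ Submodule.span K (x '' {j | j ∈ s ∧ j < i})] :
    (s.filter fun i => x i ∉ Submodule.span K (x '' {j | j ∈ s ∧ j < i})).card
      = Module.finrank K (Submodule.span K (x '' (s : Set ι))) := by
  classical
  have key : ∀ s : Finset ι, (s.filter fun i => x i ∉ Submodule.span K (x '' {j | j ∈ s ∧ j < i})).card
      = Module.finrank K (Submodule.span K (x '' (s : Set ι))) := by
    intro s
    induction s using Finset.induction_on_max with
    | empty => rw [Finset.coe_empty, Set.image_empty, Submodule.span_empty, finrank_bot]; simp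
    | insert a s hlt ih =>
      have ha : a ∉ s := fun h => lt_irrefl a (hlt a h)
      have h1 : ∀ i ∈ s, {j | j ∈ insert a s ∧ j < i} = {j | j ∈ s ∧ j < i} := by
        intro i hi
        ext j
        simp only [Finset.mem_insert, Set.mem_ofPred_eq]
        constructor
        · rintro ⟨rfl | hj, hlt'⟩
          · exact absurd (hlt i hi) (not_lt.mpr hlt'.le)
          · exact ⟨hj, hlt'⟩
        · rintro ⟨hj, hlt'⟩
          exact ⟨Or.inr hj, hlt'⟩
      have h2 : {j | j ∈ insert a s ∧ j < a} = (s : Set ι) := by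
        ext j
        simp only [Finset.mem_insert, Set.mem_ofPred_eq, Finset.mem_coe]
        constructor
        · rintro ⟨rfl | hj, hlt'⟩
          · exact absurd hlt' (lt_irrefl _)
          · exact hj
        · intro hj
          exact ⟨Or.inr hj, hlt j hj⟩
      have h3 : (s.filter fun i => x i ∉ Submodule.span K (x '' {j | j ∈ insert a s ∧ j < i}))
          = s.filter fun i => x i ∉ Submodule.span K (x '' {j | j ∈ s ∧ j < i}) := by
        apply Finset.filter_congr
        intro i hi
        rw [h1 i hi]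
      have h4 : x '' ((insert a s : Finset ι) : Set ι) = insert (x a) (x '' (s : Set ι)) := by
        rw [Finset.coe_insert, Set.image_insert_eq]
      rw [Finset.filter_insert, h3, h2, h4]
      by_cases hx : x a ∈ Submodule.span K (x '' (s : Set ι))
      · rw [if_neg (not_not.mpr hx), ih, Submodule.span_insert_eq_span hx]
      · rw [if_pos hx, Finset.card_insert_of_notMem (by simp [ha]), ih,
          finrank_insert _ (s.finite_toSet.image x) _ hx]
  rw [← key s]
  congr 1
  ext i
  simp only [Finset.mem_filter]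

section

variable {K E : Type*} [Field K] [AddCommGroup E] [Module K E] {n r : ℕ}

noncomputable abbrev mo (n : ℕ) : MonomialOrder (Fin n) := MonomialOrder.lex

abbrev II (n r : ℕ) := Fin (r + 1) ×ₗ (mo n).syn

noncomputable def mk' (j : Fin (r + 1)) (β : Fin n →₀ ℕ) : II n r := toLex (j, (mo n).toSyn β)

noncomputable def fi (i : II n r) : Fin (r + 1) := (ofLex i).1
noncomputable def se (i : II n r) : Fin n →₀ ℕ := (mo n).toSyn.symm (ofLex i).2

theorem mk'_fi_se (i : II n r) : mk' (fi i) (se i) = i := by
  unfold mk' fi se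
  rw [AddEquiv.apply_symm_apply]
  rfl

theorem fi_mk' (j : Fin (r + 1)) (β : Fin n →₀ ℕ) : fi (mk' j β) = j := rfl
theorem se_mk' (j : Fin (r + 1)) (β : Fin n →₀ ℕ) : se (mk' j β) = β := by
  unfold se mk'
  exact AddEquiv.symm_apply_apply _ _

theorem mk'_lt {j j' : Fin (r + 1)} {β β' : Fin n →₀ ℕ} :
    mk' j β < mk' j' β' ↔ j < j' ∨ (j = j' ∧ (mo n).toSyn β < (mo n).toSyn β') := by
  unfold mk'
  rw [Prod.Lex.toLex_lt_toLex]

noncomputable def Sq (n r q : ℕ) : Finset (II n r) :=
  ((Finset.univ : Finset (Fin (r + 1))) ×ˢ ((Finset.univ : Finset (Fin n)).finsuppAntidiag q)).image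
    fun p => mk' p.1 p.2

theorem mem_anti (β : Fin n →₀ ℕ) (q : ℕ) :
    β ∈ (Finset.univ : Finset (Fin n)).finsuppAntidiag q ↔ β.degree = q := by
  rw [Finset.mem_finsuppAntidiag, Finsupp.degree_eq_sum]
  simp

theorem mem_Sq (i : II n r) (q : ℕ) : i ∈ Sq n r q ↔ (se i).degree = q := by
  unfold Sq
  rw [Finset.mem_image]
  constructor
  · rintro ⟨p, hp, rfl⟩
    rw [Finset.mem_product, mem_anti] at hp
    rw [se_mk']
    exact hp.2
  · intro h
    refine ⟨(fi i, se i), ?_, mk'_fi_se i⟩
    rw [Finset.mem_product, mem_anti]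
    exact ⟨Finset.mem_univ _, h⟩

theorem std (T : (Fin n →₀ ℕ) → (E →ₗ[K] E))
    (hT : ∀ a b e, T (a + b) e = T a (T b e)) (gen : Fin (r + 1) → E)
    (h0 : Module.finrank K (Submodule.span K {x | ∃ j, ∃ β : Fin n →₀ ℕ, β.degree = 0 ∧
      x = T β (gen j)}) = r + 1) (M : ℕ) :
    ∃ V : Fin r → Finset (Fin n →₀ ℕ), (∀ j, 0 ∈ V j) ∧ (∀ j, ∀ α ∈ V j, ∀ β ≤ α, β ∈ V j) ∧
      ∀ q ≤ M, Module.finrank K (Submodule.span K {x | ∃ j, ∃ β : Fin n →₀ ℕ, β.degree = q ∧
        x = T β (gen j)})
        = Module.finrank K (Submodule.span K {x | ∃ β : Fin n →₀ ℕ, β.degree = q ∧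
          x = T β (gen 0)}) + ∑ j, ((V j).filter fun α => α.degree = q).card := by
  classical
  set x : II n r → E := fun i => T (se i) (gen (fi i)) with hx
  set Low : II n r → Set (II n r) := fun i => {j | (se j).degree = (se i).degree ∧ j < i} with hLow
  set st : II n r → Prop := fun i => x i ∉ Submodule.span K (x '' Low i) with hst
  have himg : ∀ q, x '' (Sq n r q : Set (II n r)) = {y | ∃ j, ∃ β : Fin n →₀ ℕ, β.degree = q ∧
      y = T β (gen j)} := by
    intro q
    ext y
    constructor
    · rintro ⟨i, hi, rfl⟩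
      rw [Finset.mem_coe, mem_Sq] at hi
      exact ⟨fi i, se i, hi, rfl⟩
    · rintro ⟨j, β, hβ, rfl⟩
      refine ⟨mk' j β, ?_, ?_⟩
      · rw [Finset.mem_coe, mem_Sq, se_mk']; exact hβ
      · simp only [hx, se_mk', fi_mk']
  have hcount : ∀ q, ((Sq n r q).filter st).card
      = Module.finrank K (Submodule.span K {y | ∃ j, ∃ β : Fin n →₀ ℕ, β.degree = q ∧
        y = T β (gen j)}) := by
    intro q
    rw [← himg q, ← greedy x (Sq n r q)]
    congr 1
    apply Finset.filter_congr
    intro i hi
    rw [mem_Sq] at hi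
    have : {j | j ∈ Sq n r q ∧ j < i} = Low i := by
      ext j
      simp only [hLow, Set.mem_ofPred_eq, mem_Sq, hi]
    rw [this]
  -- the first generator
  have hcount0 : ∀ q, (((Sq n r q).filter st).filter fun i => fi i = 0).card
      = Module.finrank K (Submodule.span K {y | ∃ β : Fin n →₀ ℕ, β.degree = q ∧
        y = T β (gen 0)}) := by
    intro q
    have h1 : x '' (((Sq n r q).filter fun i => fi i = 0 : Finset (II n r)) : Set (II n r))
        = {y | ∃ β : Fin n →₀ ℕ, β.degree = q ∧ y = T β (gen 0)} := by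
      ext y
      constructor
      · rintro ⟨i, hi, rfl⟩
        rw [Finset.mem_coe, Finset.mem_filter, mem_Sq] at hi
        exact ⟨se i, hi.1, by simp only [hx, hi.2]⟩
      · rintro ⟨β, hβ, rfl⟩
        refine ⟨mk' 0 β, ?_, ?_⟩
        · rw [Finset.mem_coe, Finset.mem_filter, mem_Sq, se_mk', fi_mk']; exact ⟨hβ, rfl⟩
        · simp only [hx, se_mk', fi_mk']
    rw [← h1, ← greedy x ((Sq n r q).filter fun i => fi i = 0), Finset.filter_comm]
    congr 1
    apply Finset.filter_congr
    intro i hi
    rw [Finset.mem_filter, mem_Sq] at hi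
    have : {j | j ∈ (Sq n r q).filter (fun i => fi i = 0) ∧ j < i} = Low i := by
      ext j
      simp only [hLow, Set.mem_ofPred_eq, Finset.mem_filter, mem_Sq, hi.1]
      constructor
      · rintro ⟨⟨h1, _⟩, h2⟩; exact ⟨h1, h2⟩
      · rintro ⟨h1, h2⟩
        refine ⟨⟨h1, ?_⟩, h2⟩
        rw [← mk'_fi_se i, ← mk'_fi_se j, mk'_lt, hi.2] at h2
        rcases h2 with h2 | h2
        · exact absurd h2 (Fin.not_lt_zero _)
        · exact h2.1
    rw [this]
  -- closure under division
  have hclosed : ∀ (j : Fin (r + 1)) (β δ : Fin n →₀ ℕ), st (mk' j (β + δ)) → st (mk' j β) := by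
    intro j β δ hst1 hmem
    apply hst1
    have h1 : x (mk' j (β + δ)) = T δ (x (mk' j β)) := by
      simp only [hx, se_mk', fi_mk']
      rw [add_comm β δ, hT]
    rw [h1]
    have h2 : T δ (x (mk' j β)) ∈ (Submodule.span K (x '' Low (mk' j β))).map (T δ) :=
      Submodule.mem_map_of_mem hmem
    rw [Submodule.map_span] at h2
    refine Submodule.span_mono ?_ h2
    rintro _ ⟨_, ⟨i, hi, rfl⟩, rfl⟩
    refine ⟨mk' (fi i) (se i + δ), ?_, ?_⟩
    · simp only [hLow, Set.mem_ofPred_eq, se_mk'] at hi ⊢
      refine ⟨by rw [map_add, map_add, hi.1], ?_⟩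
      have h3 := hi.2
      rw [← mk'_fi_se i, mk'_lt] at h3
      rw [mk'_lt]
      rcases h3 with h3 | ⟨h3, h4⟩
      · exact Or.inl h3
      · refine Or.inr ⟨h3, ?_⟩
        rw [map_add, map_add]
        exact add_lt_add_left h4 _
    · simp only [hx, se_mk', fi_mk']
      rw [add_comm, hT]
  -- all generators are standard
  have hgen : ∀ j, st (mk' j 0) := by
    intro j
    have h1 := hcount 0
    rw [h0] at h1
    have h2 : (Sq n r 0).card = r + 1 := by
      unfold Sq
      rw [Finset.card_image_of_injective]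
      · rw [Finset.card_product]
        have : (Finset.univ : Finset (Fin n)).finsuppAntidiag 0 = {0} := by
          ext β
          rw [mem_anti, Finset.mem_singleton, Finsupp.degree_eq_zero_iff]
        rw [this]; simp
      · intro p p' h
        have h3 := congrArg fi h
        have h4 := congrArg se h
        rw [fi_mk', fi_mk'] at h3
        rw [se_mk', se_mk'] at h4
        exact Prod.ext h3 h4
    have h3 : (Sq n r 0).filter st = Sq n r 0 :=
      Finset.eq_of_subset_of_card_le (Finset.filter_subset _ _) (by rw [h1, h2])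
    have h4 : mk' j 0 ∈ (Sq n r 0).filter st := by
      rw [h3, mem_Sq, se_mk', map_zero]
    exact (Finset.mem_filter.1 h4).2
  refine ⟨fun j => ((Finset.range (M + 1)).biUnion fun q =>
    (Finset.univ : Finset (Fin n)).finsuppAntidiag q).filter fun β => st (mk' j.succ β), ?_, ?_, ?_⟩
  · intro j
    rw [Finset.mem_filter, Finset.mem_biUnion]
    refine ⟨⟨0, by simp, by rw [mem_anti, map_zero]⟩, hgen _⟩
  · intro j α hα β hβ
    rw [Finset.mem_filter, Finset.mem_biUnion] at hα ⊢
    obtain ⟨⟨q, hq, hαq⟩, hα2⟩ := hα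
    rw [mem_anti] at hαq
    have hle : β.degree ≤ α.degree := by
      have : β + (α - β) = α := add_tsub_cancel_of_le hβ
      have := congrArg Finsupp.degree this
      rw [map_add] at this
      omega
    refine ⟨⟨β.degree, ?_, by rw [mem_anti]⟩, ?_⟩
    · rw [Finset.mem_range] at hq ⊢
      omega
    · apply hclosed _ β (α - β)
      rw [add_tsub_cancel_of_le hβ]
      exact hα2
  · intro q hq
    rw [← hcount q, ← hcount0 q]
    have hsplit : ((Sq n r q).filter st).card
        = ∑ j : Fin (r + 1), (((Sq n r q).filter st).filter fun i => fi i = j).card :=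
      Finset.card_eq_sum_card_fiberwise fun i _ => Finset.mem_coe.2 (Finset.mem_univ (fi i))
    rw [hsplit, Fin.sum_univ_succ]
    congr 1
    refine Finset.sum_congr rfl fun j _ => ?_
    symm
    refine Finset.card_bij (fun β _ => mk' j.succ β) ?_ ?_ ?_
    · intro β hβ
      simp only [Finset.mem_filter, Finset.mem_biUnion, mem_anti] at hβ
      rw [Finset.mem_filter, Finset.mem_filter, mem_Sq, se_mk', fi_mk']
      exact ⟨⟨hβ.2, hβ.1.2⟩, rfl⟩
    · intro β _ β' _ h
      have := congrArg se h
      rwa [se_mk', se_mk'] at this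
    · intro i hi
      rw [Finset.mem_filter, Finset.mem_filter, mem_Sq] at hi
      refine ⟨se i, ?_, ?_⟩
      · simp only [Finset.mem_filter, Finset.mem_biUnion, mem_anti]
        refine ⟨⟨⟨q, by rw [Finset.mem_range]; omega, hi.1.1⟩, ?_⟩, hi.1.1⟩
        rw [← hi.2, mk'_fi_se]
        exact hi.1.2
      · rw [← hi.2, mk'_fi_se]

end

end Pool.Agent.R104.PO
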