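import Pool.Agent.R104.PO.Phi

/-! Vanishing and homogeneity of the residue functionals. -/

namespace Pool.Agent.R104.PO

open Finset

noncomputable section

variable {n N : ℕ}

def SupL (f : LL n N) (S : Set (Fin n → ℤ)) : Prop := ∀ x, f.coeff x ≠ 0 → x ∈ S

def Sup (F : TT n N) (S : Set (Fin n → ℤ)) : Prop := ∀ r, SupL (PowerSeries.coeff r F) S

theorem SupL_mul {f g : LL n N} {S S' S'' : Set (Fin n → ℤ)} (hf : SupL f S) (hg : SupL g S')
    (h : ∀ x ∈ S, ∀ y ∈ S', x + y ∈ S'') : SupL (f * g) S'' := by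
  classical
  intro x hx
  have hx' : x ∈ (f * g).coeff.support := Finsupp.mem_support_iff.mpr hx
  have := AddMonoidAlgebra.support_coeff_mul_subset f g hx'
  rw [Finset.mem_add] at this
  obtain ⟨a, ha, b, hb, rfl⟩ := this
  exact h a (hf a (Finsupp.mem_support_iff.mp ha)) b (hg b (Finsupp.mem_support_iff.mp hb))

theorem SupL_sum {ι : Type*} (s : Finset ι) (f : ι → LL n N) {S : Set (Fin n → ℤ)}
    (hf : ∀ i ∈ s, SupL (f i) S) : SupL (∑ i ∈ s, f i) S := by
  intro x hx
  rw [AddMonoidAlgebra.coeff_sum, Finsupp.finsetSum_apply] at hx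
  obtain ⟨i, hi, h⟩ := Finset.exists_ne_zero_of_sum_ne_zero hx
  exact hf i hi x h

theorem SupL_single {x : Fin n → ℤ} {c : R0 n N} {S : Set (Fin n → ℤ)} (hx : x ∈ S) :
    SupL (AddMonoidAlgebra.single x c) S := by
  classical
  intro y hy
  rw [AddMonoidAlgebra.coeff_single, Finsupp.single_apply] at hy
  split_ifs at hy with h
  · exact h ▸ hx
  · exact absurd rfl hy

theorem Sup_mul {F G : TT n N} {S S' S'' : Set (Fin n → ℤ)} (hF : Sup F S) (hG : Sup G S')
    (h : ∀ x ∈ S, ∀ y ∈ S', x + y ∈ S'') : Sup (F * G) S'' := by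
  intro r
  rw [PowerSeries.coeff_mul]
  exact SupL_sum _ _ fun p _ => SupL_mul (hF p.1) (hG p.2) h

theorem Sup_add {F G : TT n N} {S : Set (Fin n → ℤ)} (hF : Sup F S) (hG : Sup G S) :
    Sup (F + G) S := by
  intro r x hx
  rw [map_add, AddMonoidAlgebra.coeff_add, Finsupp.add_apply] at hx
  by_contra hxS
  apply hx
  have h1 : (PowerSeries.coeff r F).coeff x = 0 := by
    by_contra h; exact hxS (hF r x h)
  have h2 : (PowerSeries.coeff r G).coeff x = 0 := by
    by_contra h; exact hxS (hG r x h)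
  rw [h1, h2, add_zero]

theorem Sup_C {f : LL n N} {S : Set (Fin n → ℤ)} (hf : SupL f S) :
    Sup (PowerSeries.C f) S := by
  classical
  intro r x hx
  rw [PowerSeries.coeff_C] at hx
  split_ifs at hx with h
  · exact hf x hx
  · simp at hx

theorem Sup_one {S : Set (Fin n → ℤ)} (h0 : (0 : Fin n → ℤ) ∈ S) : Sup (1 : TT n N) S := by
  have : (1 : TT n N) = PowerSeries.C (AddMonoidAlgebra.single 0 1) := by
    rw [← AddMonoidAlgebra.one_def, map_one]
  rw [this]
  exact Sup_C (SupL_single h0)

theorem Sup_zz {w : Fin n → ℤ} {S : Set (Fin n → ℤ)} (hw : w ∈ S) : Sup (zz w : TT n N) S :=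
  Sup_C (SupL_single hw)

theorem Sup_emb (c : Lam n N) {S : Set (Fin n → ℤ)} (h0 : (0 : Fin n → ℤ) ∈ S) :
    Sup (emb c) S := by
  intro r
  rw [emb, PowerSeries.coeff_map]
  have : (algebraMap (R0 n N) (LL n N)) (PowerSeries.coeff r c)
      = AddMonoidAlgebra.single 0 (PowerSeries.coeff r c) := by
    simp
  rw [this]
  exact SupL_single h0

theorem Sup_prod {ι : Type*} (s : Finset ι) (F : ι → TT n N) (S : AddSubmonoid (Fin n → ℤ))
    (hF : ∀ i ∈ s, Sup (F i) S) : Sup (∏ i ∈ s, F i) S := by
  classical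
  induction s using Finset.induction_on with
  | empty => rw [Finset.prod_empty]; exact Sup_one S.zero_mem
  | insert a s ha ih =>
    rw [Finset.prod_insert ha]
    exact Sup_mul (hF a (Finset.mem_insert_self a s))
      (ih fun i hi => hF i (Finset.mem_insert_of_mem hi)) fun x hx y hy => S.add_mem hx hy

theorem SupL_NN_pow (v : VV n N) (S : AddSubmonoid (Fin n → ℤ))
    (hS : ∀ k, (Pi.single k 1 : Fin n → ℤ) ∈ S) (r : ℕ) : SupL (NN v ^ r) S := by
  induction r with
  | zero =>
    rw [pow_zero, AddMonoidAlgebra.one_def]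
    exact SupL_single S.zero_mem
  | succ r ih =>
    rw [pow_succ]
    exact SupL_mul ih (SupL_sum _ _ fun k _ => SupL_single (hS k)) fun x hx y hy => S.add_mem hx hy

/-- exponent vectors with nonnegative `i`-th entry -/
def posS (i : Fin n) : AddSubmonoid (Fin n → ℤ) where
  carrier := {x | 0 ≤ x i}
  zero_mem' := by simp
  add_mem' := by
    intro a b ha hb
    simp at ha hb ⊢
    omega

theorem Sup_GG_pos (v : VV n N) (i : Fin n) (hi : v.1 ≠ i) : Sup (GG v) (posS i) := by
  intro r
  rw [GG, PowerSeries.coeff_mk]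
  refine SupL_mul (SupL_NN_pow v (posS i) ?_ r) (SupL_single (S := (posS i : Set _)) ?_)
    fun x hx y hy => (posS i).add_mem hx hy
  · intro k
    change (0 : ℤ) ≤ (Pi.single k 1 : Fin n → ℤ) i
    by_cases h : i = k
    · subst h; simp
    · rw [Pi.single_eq_of_ne h]
  · change (0 : ℤ) ≤ (-((r : ℤ) + 1) • (Pi.single v.1 1 : Fin n → ℤ)) i
    rw [Pi.smul_apply, Pi.single_eq_of_ne (Ne.symm hi)]
    simp

theorem Sup_iota_pos (h : PP n N) (i : Fin n) : Sup (iota h) (posS i) := by
  induction h using MvPolynomial.induction_on with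
  | C c => rw [iota_C]; exact Sup_emb c (posS i).zero_mem
  | add p q hp hq => rw [map_add]; exact Sup_add hp hq
  | mul_X p k hp =>
    rw [map_mul, iota_X]
    refine Sup_mul hp (Sup_zz (S := (posS i : Set _)) ?_) fun x hx y hy => (posS i).add_mem hx hy
    change (0 : ℤ) ≤ (Pi.single k 1 : Fin n → ℤ) i
    by_cases h : i = k
    · subst h; simp
    · rw [Pi.single_eq_of_ne h]

/-- If no form of class `i` is left, the residue vanishes. -/
theorem Phi_eq_zero (A : Finset (VV n N)) (i : Fin n) (hA : ∀ v ∈ A, v.1 ≠ i) (h : PP n N) :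
    Phi A h = 0 := by
  rw [Phi_apply]
  have : Sup (iota h * Wi A) (posS i) :=
    Sup_mul (Sup_iota_pos h i) (Sup_prod A GG (posS i) fun v hv => Sup_GG_pos v i (hA v hv))
      fun x hx y hy => (posS i).add_mem hx hy
  ext r : 1
  rw [coeff_Res, map_zero]
  by_contra hne
  have := this r m1 hne
  change (0 : ℤ) ≤ m1 i at this
  simp [m1] at this

/-- the same with class `i` cancelled by a factor -/
theorem Phi_eq_zero_of_dvd (A : Finset (VV n N)) (i : Fin n) (g : PP n N)
    (hg : PL (A.filter fun v => v.1 = i) ∣ g) : Phi A g = 0 := by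
  obtain ⟨h, rfl⟩ := hg
  rw [Phi_PL_mul (Finset.filter_subset _ _)]
  apply Phi_eq_zero _ i
  intro v hv
  rw [Finset.mem_sdiff, Finset.mem_filter] at hv
  tauto

def degS (δ : ℤ) : Set (Fin n → ℤ) := {x | ∑ i, x i = δ}

theorem SupL_NN_pow_deg (v : VV n N) (r : ℕ) : SupL (NN v ^ r) (degS (r : ℤ)) := by
  induction r with
  | zero =>
    rw [pow_zero, AddMonoidAlgebra.one_def]
    exact SupL_single (by simp [degS])
  | succ r ih =>
    rw [pow_succ]
    refine SupL_mul ih (S' := degS 1) (SupL_sum _ _ fun k _ => SupL_single ?_) ?_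
    · simp [degS]
    · intro x hx y hy
      simp only [degS, Set.mem_ofPred_eq, Pi.add_apply, Finset.sum_add_distrib] at hx hy ⊢
      rw [hx, hy]
      push_cast
      ring

theorem Sup_GG_deg (v : VV n N) : Sup (GG v) (degS (-1)) := by
  intro r
  rw [GG, PowerSeries.coeff_mk]
  refine SupL_mul (SupL_NN_pow_deg v r) (S' := degS (-((r : ℤ) + 1))) (SupL_single ?_) ?_
  · simp only [degS, Set.mem_ofPred_eq, Pi.smul_apply, smul_eq_mul, ← Finset.mul_sum]
    simp
  · intro x hx y hy
    simp only [degS, Set.mem_ofPred_eq, Pi.add_apply, Finset.sum_add_distrib] at hx hy ⊢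
    rw [hx, hy]
    ring

theorem Sup_Wi_deg (A : Finset (VV n N)) : Sup (Wi A) (degS (-(A.card : ℤ))) := by
  classical
  rw [Wi]
  induction A using Finset.induction_on with
  | empty => rw [Finset.prod_empty]; exact Sup_one (by simp [degS])
  | insert a s ha ih =>
    rw [Finset.prod_insert ha, Finset.card_insert_of_notMem ha]
    refine Sup_mul (Sup_GG_deg a) ih ?_
    intro x hx y hy
    simp only [degS, Set.mem_ofPred_eq, Pi.add_apply, Finset.sum_add_distrib] at hx hy ⊢
    rw [hx, hy]
    push_cast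
    ring

theorem zz_sum {ι : Type*} (s : Finset ι) (w : ι → Fin n → ℤ) :
    (∏ i ∈ s, zz (w i) : TT n N) = zz (∑ i ∈ s, w i) := by
  classical
  induction s using Finset.induction_on with
  | empty => simp [zz_zero]
  | insert a s ha ih => rw [Finset.prod_insert ha, Finset.sum_insert ha, ih, zz_mul]

theorem zz_pow (w : Fin n → ℤ) (r : ℕ) : (zz w ^ r : TT n N) = zz (r • w) := by
  induction r with
  | zero => simp [zz_zero]
  | succ r ih => rw [pow_succ, ih, zz_mul, succ_nsmul]

/-- exponents of a monomial as integers -/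
def ex (e : Fin n →₀ ℕ) : Fin n → ℤ := fun i => (e i : ℤ)

theorem iota_monomial (e : Fin n →₀ ℕ) :
    iota (N := N) (MvPolynomial.monomial e 1) = zz (ex e) := by
  rw [iota, MvPolynomial.coe_eval₂Hom, MvPolynomial.eval₂_monomial, map_one, one_mul,
    Finsupp.prod_fintype _ _ (fun i => pow_zero _)]
  simp only [zz_pow]
  rw [zz_sum]
  congr 1
  funext k
  rw [Finset.sum_apply]
  simp only [Pi.smul_apply, ex, Pi.single_apply]
  simp

theorem Phi_monomial_eq_zero (A : Finset (VV n N)) (e : Fin n →₀ ℕ)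
    (he : e.degree + n ≠ A.card) : Phi A (MvPolynomial.monomial e 1) = 0 := by
  rw [Phi_apply, iota_monomial]
  have : Sup (zz (ex e) * Wi A) (degS ((e.degree : ℤ) - A.card)) := by
    refine Sup_mul (Sup_zz (S := degS (e.degree : ℤ)) ?_) (Sup_Wi_deg A) ?_
    · simp [degS, ex, Finsupp.degree_eq_sum]
    · intro x hx y hy
      simp only [degS, Set.mem_ofPred_eq, Pi.add_apply, Finset.sum_add_distrib] at hx hy ⊢
      rw [hx, hy]
      ring
  ext r : 1
  rw [coeff_Res, map_zero]
  by_contra hne
  have := this r m1 hne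
  simp only [degS, Set.mem_ofPred_eq, m1] at this
  simp at this
  apply he
  omega

/-- The residue of the inverse of a transversal product is nonzero. -/
theorem Phi_transversal (j : Fin n → Fin N) :
    Phi (Finset.univ.image fun i => (i, j i)) (1 : PP n N) ≠ 0 := by
  intro h
  have h0 := congrArg (PowerSeries.coeff 0) h
  rw [Phi_apply, map_one, one_mul, coeff_Res, map_zero] at h0
  have hW : PowerSeries.coeff 0 (Wi (Finset.univ.image fun i => (i, j i)) : TT n N)
      = AddMonoidAlgebra.single m1 1 := by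
    rw [Wi, Finset.prod_image (by intro a _ b _ hab; simpa using congrArg Prod.fst hab)]
    rw [PowerSeries.coeff_zero_eq_constantCoeff, map_prod]
    have : ∀ i : Fin n, PowerSeries.constantCoeff (GG (i, j i) : TT n N)
        = AddMonoidAlgebra.single (-(Pi.single i 1)) 1 := by
      intro i
      rw [← PowerSeries.coeff_zero_eq_constantCoeff, GG, PowerSeries.coeff_mk, pow_zero, one_mul]
      simp
    simp only [this]
    rw [AddMonoidAlgebra.prod_single]
    simp only [Finset.prod_const_one]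
    congr 1
    funext k
    rw [Finset.sum_apply]
    simp [m1, Pi.single_apply]
  rw [hW] at h0
  simp at h0

end

end Pool.Agent.R104.PO
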